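import Pool.Agent.Vsn.Main
import Pool.Agent.Vlb.Main

/-!
A lower bound for two families of lines in the directions `e_1`, `e_2`
-/

set_option autoImplicit false

namespace Pool.Agent.Vsn

open MeasureTheory Set
open scoped ENNReal NNReal
open Pool.Agent.Vor (E dl line wt Near Faces)
open Pool.Agent.Vlb (evens odds axes)

/-- the centres: `(i/(4n)) e_2` for even `i`, `(i/(4n)) e_1` for odd `i` -/
noncomputable def cq (n : ℕ) (i : Fin n) : E :=
  if (i : ℕ) % 2 = 0 then EuclideanSpace.single 1 ((i : ℝ) / (4 * n))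
  else EuclideanSpace.single 0 ((i : ℝ) / (4 * n))

/-- the point of the line `i` below or above the line `j` -/
noncomputable def xp {n : ℕ} (p : Fin n → E) (i j : Fin n) : E :=
  p i + EuclideanSpace.single 0 (p j 0 - p i 0)

/-- both points are near their centres and have nearly the same height -/
def A2 (n : ℕ) (r t : ℝ) (p : Fin n → E) (i j : Fin n) : Prop :=
  ‖p i - cq n i‖ ≤ r ∧ ‖p j - cq n j‖ ≤ r ∧ |p j 2 - p i 2| ≤ t

/-- and the other lines are far -/
def E2 (n : ℕ) (r t : ℝ) (p : Fin n → E) (i j : Fin n) : Prop :=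
  A2 n r t p i j ∧ ∀ k, k ≠ i → k ≠ j → 3 * t < dl (axes n k) (xp p i j - p k)

-- BEGIN pr2
/-- As `Vlb.exists_pair` (Vlb/Geo, row det), its second half: intermediate value theorem for `dl (u i) (x - p i) - dl (u j) (x - p j)` on the segment from `x1` to `x2`. -/
theorem near_pair {n : ℕ} {u p : Fin n → E} (hu : ∀ i, ‖u i‖ = 1) {t : ℝ} (ht : 0 < t) {i j : Fin n}
    {x1 x2 : E} (h1 : dl (u i) (x1 - p i) = 0) (h2 : dl (u j) (x2 - p j) = 0) (h12 : ‖x2 - x1‖ ≤ t)
    (h3 : ∀ k, k ≠ i → k ≠ j → 3 * t < dl (u k) (x1 - p k)) :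
    ∃ x, ‖x - x1‖ ≤ t ∧ Near u p x = {i, j} := by
  obtain ⟨z, hz⟩ : ∃ z : E, z = x2 - x1 := ⟨_, rfl⟩
  rw [← hz] at h12
  have hD : ∀ (m : Fin n) (x : E), Metric.infDist x (line (p m) (u m)) = dl (u m) (x - p m) :=
    fun m x => Vor.infDist_line (hu m) x (p m)
  have hlip : ∀ (m : Fin n) (x y : E), dl (u m) x ≤ dl (u m) y + ‖x - y‖ :=
    fun m => (Vor.dl_basic (hu m)).2.2.2.2.2
  have hnn : ∀ (m : Fin n) (x : E), 0 ≤ dl (u m) x := fun m => (Vor.dl_basic (hu m)).2.1
  have e2 : dl (u j) (x1 + z - p j) = 0 := by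
    have : x1 + z - p j = x2 - p j := by
      rw [hz]
      abel
    rw [this]
    exact h2
  have hcont : ContinuousOn (fun s : ℝ => dl (u i) (x1 + s • z - p i) - dl (u j) (x1 + s • z - p j))
      (Icc 0 1) := by
    have hc : ∀ m : Fin n, Continuous fun s : ℝ => dl (u m) (x1 + s • z - p m) := fun m =>
      (Vor.dl_basic (hu m)).1.comp (by fun_prop)
    exact ((hc i).sub (hc j)).continuousOn
  have hmem : (0 : ℝ) ∈ Icc ((fun s : ℝ => dl (u i) (x1 + s • z - p i) -
      dl (u j) (x1 + s • z - p j)) 0) ((fun s : ℝ => dl (u i) (x1 + s • z - p i) -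
      dl (u j) (x1 + s • z - p j)) 1) := by
    constructor
    · show dl (u i) (x1 + (0 : ℝ) • z - p i) - dl (u j) (x1 + (0 : ℝ) • z - p j) ≤ 0
      rw [zero_smul, add_zero, h1]
      have := hnn j (x1 - p j)
      linarith
    · show 0 ≤ dl (u i) (x1 + (1 : ℝ) • z - p i) - dl (u j) (x1 + (1 : ℝ) • z - p j)
      rw [one_smul, e2]
      have := hnn i (x1 + z - p i)
      linarith
  obtain ⟨s, ⟨hs0, hs1⟩, hs⟩ := intermediate_value_Icc zero_le_one hcont hmem
  have hs' : dl (u i) (x1 + s • z - p i) - dl (u j) (x1 + s • z - p j) = 0 := hs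
  obtain ⟨x, hx⟩ : ∃ x : E, x = x1 + s • z := ⟨_, rfl⟩
  rw [← hx] at hs'
  have hsz : ‖s • z‖ ≤ t := by
    rw [norm_smul, Real.norm_eq_abs, abs_of_nonneg hs0]
    calc s * ‖z‖ ≤ 1 * ‖z‖ := mul_le_mul_of_nonneg_right hs1 (norm_nonneg _)
      _ ≤ t := by rw [one_mul]; exact h12
  have hdi : dl (u i) (x - p i) ≤ t := by
    have := hlip i (x - p i) (x1 - p i)
    have e : x - p i - (x1 - p i) = s • z := by rw [hx]; abel
    rw [e, h1] at this
    linarith
  have hdj : dl (u j) (x - p j) = dl (u i) (x - p i) := by linarith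
  have hdk : ∀ k, k ≠ i → k ≠ j → 2 * t < dl (u k) (x - p k) := by
    intro k hki hkj
    have h6 := h3 k hki hkj
    have h7 := hlip k (x1 - p k) (x - p k)
    have e : x1 - p k - (x - p k) = -(s • z) := by rw [hx]; abel
    rw [e, norm_neg] at h7
    linarith
  refine ⟨x, ?_, ?_⟩
  · rw [hx, add_sub_cancel_left]
    exact hsz
  · ext m
    unfold Vor.Near
    simp only [hD]
    constructor
    · intro hm
      have hm' : ∀ k, dl (u m) (x - p m) ≤ dl (u k) (x - p k) := hm
      by_contra hcon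
      have hmi : m ≠ i := fun e => hcon (by rw [e]; exact Set.mem_insert _ _)
      have hmj : m ≠ j := fun e => hcon (by rw [e]; exact Set.mem_insert_of_mem _ rfl)
      have := hdk m hmi hmj
      have := hm' i
      linarith
    · intro hm
      have hmi : dl (u m) (x - p m) = dl (u i) (x - p i) := by
        rcases hm with e | e
        · rw [e]
        · rw [e]
          exact hdj
      intro k
      rcases eq_or_ne k i with e | hki
      · rw [e, hmi]
      · rcases eq_or_ne k j with e | hkj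
        · rw [e, hmi, hdj]
        · have := hdk k hki hkj
          rw [hmi]
          linarith
-- END pr2

-- BEGIN in2
open Classical in
/-- As `Vlb.pairs_le` (Vlb/Geo, row inj) for an arbitrary predicate. -/
theorem pairs_le2 {n : ℕ} {u p : Fin n → E} (I J : Finset (Fin n)) (hIJ : Disjoint I J)
    (P : Fin n → Fin n → Prop) {B : Set E}
    (hP : ∀ i ∈ I, ∀ j ∈ J, P i j → ∃ x ∈ B, Near u p x = {i, j}) :
    (∑ i ∈ I, ∑ j ∈ J, if P i j then (1 : ℝ≥0∞) else 0) ≤
      (({f | f ∈ Faces u p ∧ (f ∩ B).Nonempty}.encard : ℕ∞) : ℝ≥0∞) := by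
  have hch : ∀ q : Fin n × Fin n, ∃ x : E, (q.1 ∈ I ∧ q.2 ∈ J ∧ P q.1 q.2) →
      x ∈ B ∧ Near u p x = {q.1, q.2} := by
    intro q
    by_cases h : q.1 ∈ I ∧ q.2 ∈ J ∧ P q.1 q.2
    · obtain ⟨x, hx, hx'⟩ := hP q.1 h.1 q.2 h.2.1 h.2.2
      exact ⟨x, fun _ => ⟨hx, hx'⟩⟩
    · exact ⟨0, fun h' => absurd h' h⟩
  choose x hx using hch
  set S : Finset (Fin n × Fin n) := (I ×ˢ J).filter fun q => P q.1 q.2 with hS
  have hsum : (∑ i ∈ I, ∑ j ∈ J, if P i j then (1 : ℝ≥0∞) else 0) = (S.card : ℝ≥0∞) := by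
    rw [hS, Finset.card_filter, Finset.sum_product]
    push_cast
    rfl
  have hcard : ((S.card : ℕ∞)) ≤ {f | f ∈ Faces u p ∧ (f ∩ B).Nonempty}.encard := by
    rw [← Set.encard_coe_eq_coe_finsetCard]
    refine Set.encard_le_encard_of_injOn
      (f := fun q => connectedComponentIn {y | Near u p y = Near u p (x q)} (x q)) ?_ ?_
    · intro q hq
      have hq' := Finset.mem_filter.mp (Finset.mem_coe.mp hq)
      have hqm := Finset.mem_product.mp hq'.1
      have hm : x q ∈ connectedComponentIn {y | Near u p y = Near u p (x q)} (x q) :=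
        mem_connectedComponentIn rfl
      exact ⟨⟨x q, rfl⟩, x q, hm, (hx q ⟨hqm.1, hqm.2, hq'.2⟩).1⟩
    · intro q hq q' hq' he
      have h1 := Finset.mem_filter.mp (Finset.mem_coe.mp hq)
      have h2 := Finset.mem_filter.mp (Finset.mem_coe.mp hq')
      have h1m := Finset.mem_product.mp h1.1
      have h2m := Finset.mem_product.mp h2.1
      have hm : x q ∈ connectedComponentIn {y | Near u p y = Near u p (x q)} (x q) :=
        mem_connectedComponentIn rfl
      have he' : connectedComponentIn {y | Near u p y = Near u p (x q)} (x q) =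
        connectedComponentIn {y | Near u p y = Near u p (x q')} (x q') := he
      rw [he'] at hm
      have h3' : x q ∈ {y | Near u p y = Near u p (x q')} := connectedComponentIn_subset _ _ hm
      have h3 : Near u p (x q) = Near u p (x q') := h3'
      rw [(hx q ⟨h1m.1, h1m.2, h1.2⟩).2, (hx q' ⟨h2m.1, h2m.2, h2.2⟩).2] at h3
      have hd : ∀ i ∈ I, ∀ j ∈ J, i ≠ j := by
        intro i hi j hj e
        exact Finset.disjoint_left.mp hIJ hi (e ▸ hj)
      have h4 : q.1 = q'.1 := by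
        have h5 : q.1 ∈ ({q'.1, q'.2} : Set (Fin n)) := by
          rw [← h3]
          exact Set.mem_insert _ _
        rcases h5 with h6 | h6
        · exact h6
        · exact absurd h6 (hd _ h1m.1 _ h2m.2)
      have h7 : q.2 = q'.2 := by
        have h5 : q.2 ∈ ({q'.1, q'.2} : Set (Fin n)) := by
          rw [← h3]
          exact Set.mem_insert_of_mem _ rfl
        rcases h5 with h6 | h6
        · exact absurd h6.symm (hd _ h2m.1 _ h1m.2)
        · exact h6
      exact Prod.ext h4 h7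
  rw [hsum]
  have h8 : ((S.card : ℕ∞) : ℝ≥0∞) ≤
      (({f | f ∈ Faces u p ∧ (f ∩ B).Nonempty}.encard : ℕ∞) : ℝ≥0∞) := by
    exact_mod_cast hcard
  simpa using h8
-- END in2

-- BEGIN ev2
private theorem ev2_coord {x c : E} {r : ℝ} (h : ‖x - c‖ ≤ r) (k : Fin 3) : |x k - c k| ≤ r := by
  have h1 := PiLp.norm_apply_le (x - c) k
  rw [Real.norm_eq_abs, PiLp.sub_apply] at h1
  exact h1.trans h

private theorem ev2_frac {n : ℕ} (i : Fin n) : 0 ≤ (i : ℝ) / (4 * n) ∧ (i : ℝ) / (4 * n) ≤ 1 / 4 := by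
  have hn : (0 : ℝ) < n := by exact_mod_cast (Nat.zero_le (i : ℕ)).trans_lt i.isLt
  have hi : (i : ℝ) ≤ n := by exact_mod_cast i.isLt.le
  refine ⟨by positivity, ?_⟩
  rw [div_le_div_iff₀ (by positivity) (by norm_num)]
  linarith

/-- `i` even, `j` odd: `axes n i = single 0 1`, `axes n j = single 1 1`. Row pr2 with `x1 = xp p i j = (p j 0, p i 1, p i 2)` and `x2 = (p j 0, p i 1, p j 2)`. `|p j 0| ≤ 1/4 + 1/8`, `|p i 1| ≤ 1/4 + 1/8`, `|p i 2| ≤ 1/8`, so `‖x1‖ ≤ 7/8`. -/
theorem exists_E2 {n : ℕ} {r t : ℝ} (hr : r ≤ 1 / 8) (ht : 0 < t) (ht1 : t ≤ 1 / 64)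
    {p : Fin n → E} {i j : Fin n} (hi : i ∈ evens n) (hj : j ∈ odds n) (h : E2 n r t p i j) :
    ∃ x ∈ Metric.closedBall (0 : E) 1, Near (axes n) p x = {i, j} := by
  obtain ⟨⟨h1, h2, h3⟩, h4⟩ := h
  have hi' : (i : ℕ) % 2 = 0 := (Finset.mem_filter.1 hi).2
  have hj' : (j : ℕ) % 2 = 1 := (Finset.mem_filter.1 hj).2
  have hj0 : ¬ (j : ℕ) % 2 = 0 := by omega
  have hai : axes n i = EuclideanSpace.single 0 1 := by unfold axes; rw [if_pos hi']
  have haj : axes n j = EuclideanSpace.single 1 1 := by unfold axes; rw [if_neg hj0]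
  have hci : cq n i = EuclideanSpace.single 1 ((i : ℝ) / (4 * n)) := by unfold cq; rw [if_pos hi']
  have hcj : cq n j = EuclideanSpace.single 0 ((j : ℝ) / (4 * n)) := by unfold cq; rw [if_neg hj0]
  have hu : ∀ k, ‖axes n k‖ = 1 := by
    intro k
    unfold axes
    split_ifs <;> simp
  have hzero : ∀ (m : Fin n) (s : ℝ), dl (axes n m) (s • axes n m) = 0 := by
    intro m s
    unfold Vor.dl
    rw [inner_smul_right, real_inner_self_eq_norm_sq, hu m]
    simp
  have hx0 : xp p i j 0 = p j 0 := by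
    unfold xp
    simp
  have hx1 : xp p i j 1 = p i 1 := by
    unfold xp
    simp
  have hx2 : xp p i j 2 = p i 2 := by
    unfold xp
    simp
  have e1 : dl (axes n i) (xp p i j - p i) = 0 := by
    have : xp p i j - p i = (p j 0 - p i 0) • axes n i := by
      rw [hai]
      unfold xp
      rw [add_sub_cancel_left]
      ext k
      fin_cases k <;> simp
    rw [this]
    exact hzero i _
  have e2 : dl (axes n j) ((xp p i j + EuclideanSpace.single 2 (p j 2 - p i 2)) - p j) = 0 := by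
    have : (xp p i j + EuclideanSpace.single 2 (p j 2 - p i 2)) - p j = (p i 1 - p j 1) • axes n j := by
      rw [haj]
      unfold xp
      ext k
      fin_cases k <;> simp
    rw [this]
    exact hzero j _
  obtain ⟨x, hx, hn⟩ := near_pair hu ht e1 e2 (by
    rw [add_sub_cancel_left, EuclideanSpace.norm_single, Real.norm_eq_abs]
    exact h3) h4
  refine ⟨x, ?_, hn⟩
  rw [mem_closedBall_zero_iff]
  have c0 := ev2_coord h2 0
  have c1 := ev2_coord h1 1
  have c2 := ev2_coord h1 2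
  rw [hcj] at c0
  rw [hci] at c1 c2
  have f1 := ev2_frac i
  have f2 := ev2_frac j
  have d0 : EuclideanSpace.single (0 : Fin 3) ((j : ℝ) / (4 * n)) 0 = (j : ℝ) / (4 * n) := by simp
  have d1 : EuclideanSpace.single (1 : Fin 3) ((i : ℝ) / (4 * n)) 1 = (i : ℝ) / (4 * n) := by simp
  have d2 : EuclideanSpace.single (1 : Fin 3) ((i : ℝ) / (4 * n)) 2 = 0 := by simp
  rw [d0] at c0
  rw [d1] at c1
  rw [d2] at c2
  have g0 : |xp p i j 0| ≤ 3 / 8 := by
    rw [hx0]
    rw [abs_le] at c0 ⊢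
    constructor <;> linarith [c0.1, c0.2, f2.1, f2.2]
  have g1 : |xp p i j 1| ≤ 3 / 8 := by
    rw [hx1]
    rw [abs_le] at c1 ⊢
    constructor <;> linarith [c1.1, c1.2, f1.1, f1.2]
  have g2 : |xp p i j 2| ≤ 1 / 8 := by
    rw [hx2]
    rw [abs_le] at c2 ⊢
    constructor <;> linarith [c2.1, c2.2]
  have hnorm : ‖xp p i j‖ ≤ 7 / 8 := by
    rw [EuclideanSpace.norm_eq]
    refine Real.sqrt_le_iff.2 ⟨by norm_num, ?_⟩
    rw [Fin.sum_univ_three]
    simp only [Real.norm_eq_abs]
    have q0 := mul_self_le_mul_self (abs_nonneg _) g0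
    have q1 := mul_self_le_mul_self (abs_nonneg _) g1
    have q2 := mul_self_le_mul_self (abs_nonneg _) g2
    nlinarith
  calc ‖x‖ = ‖(x - xp p i j) + xp p i j‖ := by rw [sub_add_cancel]
    _ ≤ ‖x - xp p i j‖ + ‖xp p i j‖ := norm_add_le _ _
    _ ≤ 1 := by linarith
-- END ev2

-- BEGIN me2
private theorem me2_single {X : Type*} [TopologicalSpace X] {f : X → ℝ} (hf : Continuous f) (m : Fin 3) :
    Continuous fun x => (EuclideanSpace.single m (f x) : E) := by
  have h : (fun x => (EuclideanSpace.single m (f x) : E)) =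
      fun x => f x • (EuclideanSpace.single m (1 : ℝ) : E) := by
    funext x
    ext l
    simp
  rw [h]
  exact hf.smul continuous_const

private theorem me2_coord {n : ℕ} (i : Fin n) (m : Fin 3) :
    Continuous fun p : Fin n → E => p i m :=
  (EuclideanSpace.proj m : E →L[ℝ] ℝ).continuous.comp (continuous_apply i)

private theorem me2_dl {n : ℕ} (u : E) (i j k : Fin n) :
    Continuous fun p : Fin n → E => dl u (xp p i j - p k) := by
  have h1 : Continuous fun p : Fin n → E => xp p i j - p k :=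
    ((continuous_apply i).add (me2_single ((me2_coord j 0).sub (me2_coord i 0)) 0)).sub
      (continuous_apply k)
  have h2 : Continuous fun w : E => dl u w := by
    unfold Vor.dl
    fun_prop
  exact h2.comp h1

/-- Coordinates, norms, `dl u w = ‖w - ⟪u,w⟫ u‖` are continuous; finite intersections. -/
theorem measurableSet_E2 (n : ℕ) (r t : ℝ) (i j : Fin n) :
    MeasurableSet {p : Fin n → E | E2 n r t p i j} ∧ MeasurableSet {p : Fin n → E | A2 n r t p i j} ∧
    ∀ k, MeasurableSet {p : Fin n → E | A2 n r t p i j ∧ dl (axes n k) (xp p i j - p k) ≤ 3 * t} := by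
  have hn : ∀ l : Fin n, Continuous fun p : Fin n → E => ‖p l - cq n l‖ := fun l =>
    ((continuous_apply l).sub continuous_const).norm
  have hA : MeasurableSet {p : Fin n → E | A2 n r t p i j} :=
    ((isClosed_le (hn i) continuous_const).measurableSet).inter
      (((isClosed_le (hn j) continuous_const).measurableSet).inter
        ((isClosed_le ((me2_coord j 2).sub (me2_coord i 2)).abs continuous_const).measurableSet))
  refine ⟨?_, hA, fun k => hA.inter
    (isClosed_le (me2_dl (axes n k) i j k) continuous_const).measurableSet⟩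
  refine hA.inter ?_
  have h1 : {p : Fin n → E | ∀ k, k ≠ i → k ≠ j → 3 * t < dl (axes n k) (xp p i j - p k)} =
      ⋂ k, ⋂ (_ : k ≠ i), ⋂ (_ : k ≠ j), {p : Fin n → E | 3 * t < dl (axes n k) (xp p i j - p k)} := by
    ext p
    rw [Set.mem_iInter]
    refine forall_congr' fun k => ?_
    rw [Set.mem_iInter]
    refine forall_congr' fun _ => ?_
    rw [Set.mem_iInter]
    exact Iff.rfl
  have h2 : MeasurableSet {p : Fin n → E | ∀ k, k ≠ i → k ≠ j → 3 * t < dl (axes n k) (xp p i j - p k)} := by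
    rw [h1]
    exact MeasurableSet.iInter fun k => MeasurableSet.iInter fun _ => MeasurableSet.iInter fun _ =>
      (isOpen_lt continuous_const (me2_dl (axes n k) i j k)).measurableSet
  exact h2
-- END me2

-- BEGIN pA2
private theorem pA2_low {m0 : ℝ} {g : E → ℝ≥0} {T : Set E} (hT : MeasurableSet T)
    (hg : ∀ x ∈ T, m0 ≤ g x) : ENNReal.ofReal m0 * volume T ≤ (lw g) T := by
  show ENNReal.ofReal m0 * volume T ≤ ((volume : Measure E).withDensity fun x => (g x : ℝ≥0∞)) T
  rw [withDensity_apply _ hT, ← setLIntegral_const]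
  refine setLIntegral_mono' hT (fun x hx => ?_)
  rw [← ENNReal.ofReal_coe_nnreal]
  exact ENNReal.ofReal_le_ofReal (hg x hx)

private theorem pA2_cq (n : ℕ) (i : Fin n) : cq n i 2 = 0 := by
  unfold cq
  split_ifs
  · rw [EuclideanSpace.single_apply, if_neg (by decide)]
  · rw [EuclideanSpace.single_apply, if_neg (by decide)]

private theorem pA2_coord (x : E) (k : Fin 3) : |x k| ≤ ‖x‖ := by
  have h := PiLp.norm_apply_le x k
  rwa [Real.norm_eq_abs] at h

private theorem pA2_box {n : ℕ} {r t : ℝ} (hr : 0 < r) (ht : 0 < t) (htr : t ≤ r / 8) (j : Fin n)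
    {z : ℝ} (hz : |z| ≤ r / 2) :
    ENNReal.ofReal (2 * r ^ 2 * t) ≤ volume {x : E | ‖x - cq n j‖ ≤ r ∧ |x 2 - z| ≤ t} := by
  have hφ : MeasurePreserving (fun w : E => (WithLp.ofLp w : Fin 3 → ℝ)) volume volume :=
    PiLp.volume_preserving_ofLp _
  set lo : Fin 3 → ℝ := ![cq n j 0 - r / 2, cq n j 1 - r / 2, z - t] with hlo
  set hi : Fin 3 → ℝ := ![cq n j 0 + r / 2, cq n j 1 + r / 2, z + t] with hhi
  have hvol : volume (Icc lo hi) = ENNReal.ofReal (2 * r ^ 2 * t) := by
    rw [Real.volume_Icc_pi, Fin.prod_univ_three]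
    have e0 : hi 0 - lo 0 = r := by
      simp [hlo, hhi]
    have e1 : hi 1 - lo 1 = r := by
      simp [hlo, hhi]
    have e2 : hi 2 - lo 2 = 2 * t := by
      simp [hlo, hhi]
      ring
    rw [e0, e1, e2, ← ENNReal.ofReal_mul hr.le, ← ENNReal.ofReal_mul (by positivity)]
    congr 1
    ring
  rw [← hvol, ← hφ.measure_preimage measurableSet_Icc.nullMeasurableSet]
  refine measure_mono fun w hw => ?_
  have h0 : |w 0 - cq n j 0| ≤ r / 2 := by
    have h1 : lo 0 ≤ w 0 := hw.1 0
    have h2 : w 0 ≤ hi 0 := hw.2 0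
    have e1 : lo 0 = cq n j 0 - r / 2 := rfl
    have e2 : hi 0 = cq n j 0 + r / 2 := rfl
    rw [e1] at h1
    rw [e2] at h2
    exact abs_le.2 ⟨by linarith, by linarith⟩
  have h1 : |w 1 - cq n j 1| ≤ r / 2 := by
    have h1 : lo 1 ≤ w 1 := hw.1 1
    have h2 : w 1 ≤ hi 1 := hw.2 1
    have e1 : lo 1 = cq n j 1 - r / 2 := rfl
    have e2 : hi 1 = cq n j 1 + r / 2 := rfl
    rw [e1] at h1
    rw [e2] at h2
    exact abs_le.2 ⟨by linarith, by linarith⟩
  have h2 : |w 2 - z| ≤ t := by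
    have h1 : lo 2 ≤ w 2 := hw.1 2
    have h2 : w 2 ≤ hi 2 := hw.2 2
    have e1 : lo 2 = z - t := rfl
    have e2 : hi 2 = z + t := rfl
    rw [e1] at h1
    rw [e2] at h2
    exact abs_le.2 ⟨by linarith, by linarith⟩
  refine ⟨?_, h2⟩
  have h3 : |w 2| ≤ 5 * r / 8 := by
    have h4 := abs_sub_abs_le_abs_sub (w 2) z
    linarith
  have h4 : ‖w - cq n j‖ ^ 2 ≤ r ^ 2 := by
    rw [EuclideanSpace.real_norm_sq_eq, Fin.sum_univ_three]
    have e0 : (w - cq n j) 0 = w 0 - cq n j 0 := rfl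
    have e1 : (w - cq n j) 1 = w 1 - cq n j 1 := rfl
    have e2 : (w - cq n j) 2 = w 2 := by
      have h5 : (w - cq n j) 2 = w 2 - cq n j 2 := rfl
      rw [h5, pA2_cq, sub_zero]
    rw [e0, e1, e2, ← sq_abs (w 0 - cq n j 0), ← sq_abs (w 1 - cq n j 1), ← sq_abs (w 2)]
    have a0 := pow_le_pow_left₀ (abs_nonneg _) h0 2
    have a1 := pow_le_pow_left₀ (abs_nonneg _) h1 2
    have a2 := pow_le_pow_left₀ (abs_nonneg _) h3 2
    nlinarith [sq_nonneg r]
  exact (sq_le_sq₀ (norm_nonneg _) hr.le).1 h4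

/-- `r = min s (1/8)`, `lap s q x ≥ e^(-1)/(8π s³)` for `‖x - q‖ ≤ r ≤ s`. `Vlb.lintegral_update` for `k = j`: for `‖p i - cq n i‖ ≤ r/2` the measure of `{x | ‖x - cq n j‖ ≤ r ∧ |x 2 - p i 2| ≤ t}` is at least `e^(-1)/(8π s³)` times the volume `(r/2)² 2t` of the box `|x 0 - cq n j 0| ≤ r/4`, `|x 1 - cq n j 1| ≤ r/4`, `|x 2 - p i 2| ≤ t`; then `{‖p i - cq n i‖ ≤ r/2}` has measure `≥ e^(-1)/(8π s³) (4π/3)(r/2)³`. `r ≥ s/8`; the constant is `1.6 · 10^(-9)`. -/
theorem prob_A2 {n : ℕ} {s : ℝ} (hs : 0 < s) (hs1 : s ≤ 1) {i j : Fin n} (hij : i ≠ j) {t : ℝ}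
    (ht : 0 < t) (hts : t ≤ s / 64) :
    ENNReal.ofReal (t / s / 1000000000) ≤ (Measure.pi fun i => lw (lap s (cq n i)))
      {p | A2 n (min s (1 / 8)) t p i j} := by
  classical
  set r : ℝ := min s (1 / 8) with hr
  have hr0 : 0 < r := lt_min hs (by norm_num)
  have hrs : r ≤ s := min_le_left _ _
  have hsr : s / 8 ≤ r := le_min (by linarith) (by linarith)
  set m0 : ℝ := Real.exp (-1) / (8 * Real.pi * s ^ 3) with hm0d
  have hpi := Real.pi_pos
  have hm0 : 0 ≤ m0 := by positivity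
  set μ : Fin n → Measure E := fun i => lw (lap s (cq n i)) with hμ
  have hprob : ∀ i, IsProbabilityMeasure (μ i) := fun i => Pool.Agent.Vor.main_prob (lap_int hs _)
  have hlow : ∀ q x : E, ‖x - q‖ ≤ r → m0 ≤ lap s q x := by
    intro q x hx
    unfold lap
    rw [Real.coe_toNNReal _ (by positivity)]
    refine div_le_div_of_nonneg_right (Real.exp_le_exp.2 ?_) (by positivity)
    have h1 : ‖x - q‖ / s ≤ 1 := (div_le_one hs).2 (hx.trans hrs)
    linarith
  set S : Set (Fin n → E) := {p | A2 n r t p i j} with hS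
  have hSm : MeasurableSet S := (measurableSet_E2 n r t i j).2.1
  set B : Set (Fin n → E) := {p | ‖p i - cq n i‖ ≤ r / 2} with hB
  have hBm : MeasurableSet B := by
    have h0 : Measurable fun p : Fin n → E => p i := measurable_pi_apply i
    have h3 : Measurable fun x : E => ‖x - cq n i‖ := (continuous_id.sub continuous_const).norm.measurable
    exact measurableSet_le (h3.comp h0) measurable_const
  have hin : ∀ p ∈ B, ENNReal.ofReal (m0 * (2 * r ^ 2 * t)) ≤
      ∫⁻ x, S.indicator (fun _ => (1 : ℝ≥0∞)) (Function.update p j x) ∂(μ j) := by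
    intro p hp
    have hp' : ‖p i - cq n i‖ ≤ r / 2 := hp
    set T : Set E := {x : E | ‖x - cq n j‖ ≤ r ∧ |x 2 - p i 2| ≤ t} with hT
    have hTm : MeasurableSet T := by
      have hcl : IsClosed T := by
        have e : T = {x : E | ‖x - cq n j‖ ≤ r} ∩ {x : E | |x 2 - p i 2| ≤ t} := rfl
        rw [e]
        refine (isClosed_le (continuous_id.sub continuous_const).norm continuous_const).inter
          (isClosed_le ?_ continuous_const)
        have h1 : Continuous fun x : E => x 2 := by fun_prop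
        exact (h1.sub continuous_const).abs
      exact hcl.measurableSet
    have h3 : ∀ x, S.indicator (fun _ => (1 : ℝ≥0∞)) (Function.update p j x) =
        T.indicator (fun _ => (1 : ℝ≥0∞)) x := by
      intro x
      have e1 : Function.update p j x i = p i := Function.update_of_ne hij x p
      have e2 : Function.update p j x j = x := Function.update_self j x p
      have h4 : Function.update p j x ∈ S ↔ x ∈ T := by
        rw [hS, Set.mem_setOf_eq, hT, Set.mem_setOf_eq]
        unfold A2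
        rw [e1, e2]
        exact ⟨fun h => h.2, fun h => ⟨by linarith, h⟩⟩
      by_cases hx : x ∈ T
      · rw [Set.indicator_of_mem hx, Set.indicator_of_mem (h4.2 hx)]
      · rw [Set.indicator_of_notMem hx, Set.indicator_of_notMem (fun h => hx (h4.1 h))]
    rw [lintegral_congr h3, lintegral_indicator_const hTm, one_mul]
    have h10 := pA2_low (m0 := m0) (g := lap s (cq n j)) hTm fun x hx => hlow _ _ hx.1
    refine le_trans ?_ h10
    rw [ENNReal.ofReal_mul hm0]
    have hz : |p i 2| ≤ r / 2 := by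
      have h5 := pA2_coord (p i - cq n i) 2
      have h6 : (p i - cq n i) 2 = p i 2 - cq n i 2 := rfl
      rw [h6, pA2_cq, sub_zero] at h5
      exact h5.trans hp'
    exact mul_le_mul_right (pA2_box hr0 ht (by linarith) j hz) _
  have hPB : ENNReal.ofReal (m0 * (r ^ 3 / 2)) ≤ Measure.pi μ B := by
    have e1 : B = (Function.eval i) ⁻¹' (Metric.closedBall (cq n i) (r / 2)) := by
      ext p
      rw [hB, Set.mem_setOf_eq, Set.mem_preimage, Metric.mem_closedBall, dist_eq_norm]
    rw [e1, (measurePreserving_eval μ i).measure_preimage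
      Metric.isClosed_closedBall.measurableSet.nullMeasurableSet]
    have h2 : ∀ x ∈ Metric.closedBall (cq n i) (r / 2), m0 ≤ lap s (cq n i) x := by
      intro x hx
      apply hlow
      rw [Metric.mem_closedBall, dist_eq_norm] at hx
      linarith
    refine le_trans ?_ (pA2_low Metric.isClosed_closedBall.measurableSet h2)
    rw [ENNReal.ofReal_mul hm0]
    refine mul_le_mul_right ?_ _
    rw [EuclideanSpace.volume_closedBall_fin_three, ← ENNReal.ofReal_pow (by positivity),
      ← ENNReal.ofReal_mul (by positivity)]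
    apply ENNReal.ofReal_le_ofReal
    have hpi3 := Real.pi_gt_three
    have hr3 : 0 < r ^ 3 := by positivity
    nlinarith
  have h12 : Measure.pi μ S = ∫⁻ p, S.indicator (fun _ => (1 : ℝ≥0∞)) p ∂(Measure.pi μ) := by
    rw [lintegral_indicator_const hSm, one_mul]
  have hnum : t / s / 1000000000 ≤ m0 * (2 * r ^ 2 * t) * (m0 * (r ^ 3 / 2)) := by
    have hr5 : (s / 8) ^ 5 ≤ r ^ 5 := pow_le_pow_left₀ (by positivity) hsr 5
    have e1 : m0 * (2 * r ^ 2 * t) * (m0 * (r ^ 3 / 2)) = m0 ^ 2 * r ^ 5 * t := by ring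
    have h5 : m0 ^ 2 * (s / 8) ^ 5 * t ≤ m0 ^ 2 * r ^ 5 * t :=
      mul_le_mul_of_nonneg_right (mul_le_mul_of_nonneg_left hr5 (by positivity)) ht.le
    rw [e1]
    refine le_trans ?_ h5
    have e2 : m0 ^ 2 * (s / 8) ^ 5 * t = t / s * (Real.exp (-1) ^ 2 / (64 * 32768 * Real.pi ^ 2)) := by
      rw [hm0d]
      field_simp
      ring
    rw [e2, div_eq_mul_one_div (t / s) 1000000000]
    refine mul_le_mul_of_nonneg_left ?_ (by positivity)
    rw [Real.exp_neg, le_div_iff₀ (by positivity)]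
    have h6 : (Real.exp 1)⁻¹ ^ 2 = (Real.exp 1 ^ 2)⁻¹ := by rw [inv_pow]
    rw [h6]
    have he : Real.exp 1 < 2.7182818286 := Real.exp_one_lt_d9
    have hp2 : Real.pi < 3.15 := Real.pi_lt_d2
    have h7 : Real.exp 1 ^ 2 ≤ 9 := by
      have h8 := pow_le_pow_left₀ (Real.exp_pos 1).le (show Real.exp 1 ≤ 3 by linarith) 2
      linarith
    have h8 : Real.pi ^ 2 ≤ 10 := by nlinarith
    have h9 : (1 : ℝ) / 9 ≤ (Real.exp 1 ^ 2)⁻¹ := by
      rw [one_div]
      exact inv_anti₀ (by positivity) h7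
    linarith
  rw [h12, Pool.Agent.Vlb.lintegral_update μ j _ (measurable_const.indicator hSm)]
  calc ENNReal.ofReal (t / s / 1000000000)
      ≤ ENNReal.ofReal (m0 * (2 * r ^ 2 * t)) * ENNReal.ofReal (m0 * (r ^ 3 / 2)) := by
        rw [← ENNReal.ofReal_mul (by positivity)]
        exact ENNReal.ofReal_le_ofReal hnum
    _ ≤ ENNReal.ofReal (m0 * (2 * r ^ 2 * t)) * Measure.pi μ B := mul_le_mul_right hPB _
    _ = ∫⁻ _ in B, ENNReal.ofReal (m0 * (2 * r ^ 2 * t)) ∂(Measure.pi μ) := by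
        rw [setLIntegral_const]
    _ ≤ ∫⁻ p in B, (∫⁻ x, S.indicator (fun _ => (1 : ℝ≥0∞)) (Function.update p j x) ∂(μ j)) ∂(Measure.pi μ) :=
        setLIntegral_mono' hBm hin
    _ ≤ ∫⁻ p, (∫⁻ x, S.indicator (fun _ => (1 : ℝ≥0∞)) (Function.update p j x) ∂(μ j)) ∂(Measure.pi μ) :=
        setLIntegral_le_lintegral _ _
-- END pA2

-- BEGIN slb
private theorem slb_exp {c : ℝ} (hc : 0 < c) (a : ℝ) :
    ∫ x, Real.exp (-(|x - a| / c)) = 2 * c := by
  rw [integral_sub_right_eq_self (fun x => Real.exp (-(|x| / c))) a]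
  rw [integral_comp_abs (f := fun x => Real.exp (-(x / c)))]
  have h : ∀ x : ℝ, Real.exp (-(x / c)) = Real.exp ((-c⁻¹) * x) := by
    intro x
    congr 1
    field_simp
  simp_rw [h]
  rw [integral_exp_mul_Ioi (by simpa using hc) 0]
  simp

private theorem slb_int {c : ℝ} (hc : 0 < c) (a : ℝ) :
    Integrable fun x => Real.exp (-(|x - a| / c)) := by
  by_contra h
  have h1 := slb_exp hc a
  rw [integral_undef h] at h1
  linarith

private theorem slb_ind (z : ℝ) {b : ℝ} (hb : 0 ≤ b) :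
    Integrable (Set.indicator {x : ℝ | |x - z| ≤ b} (fun _ => (1 : ℝ))) ∧
    ∫ x, Set.indicator {x : ℝ | |x - z| ≤ b} (fun _ => (1 : ℝ)) x = 2 * b := by
  have h1 : {x : ℝ | |x - z| ≤ b} = Set.Icc (z - b) (z + b) := by
    ext x
    rw [Set.mem_Icc]
    refine Iff.trans (show x ∈ {x : ℝ | |x - z| ≤ b} ↔ |x - z| ≤ b from Iff.rfl) ?_
    rw [abs_le]
    constructor
    · rintro ⟨h1, h2⟩; constructor <;> linarith
    · rintro ⟨h1, h2⟩; constructor <;> linarith
  rw [h1]
  constructor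
  · rw [integrable_indicator_iff measurableSet_Icc]
    exact integrableOn_const (by rw [Real.volume_Icc]; exact ENNReal.ofReal_ne_top)
  · rw [integral_indicator measurableSet_Icc, setIntegral_const, smul_eq_mul, mul_one,
      Measure.real, Real.volume_Icc, ENNReal.toReal_ofReal (by linarith)]
    ring

private noncomputable def slb_f (c b z : ℝ) (q : E) : Fin 3 → ℝ → ℝ
  | 0 => fun x => Real.exp (-(|x - q 0| / c))
  | 1 => fun x => Real.exp (-(|x - q 1| / c))
  | 2 => Set.indicator {x : ℝ | |x - z| ≤ b} (fun _ => (1 : ℝ))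

/-- `lap s q x ≤ exp (-‖(x - q)⊥‖/s)/(8π s³)` with the components 0 and 1 only; product of the slab `|x 2 - z| ≤ b` and the plane: `2b/(8π s³) · 2π s² = b/(2s)`. Or as row csm: stretch the coordinate 2. -/
theorem slab_mass {s : ℝ} (hs : 0 < s) (q : E) (z : ℝ) {b : ℝ} (hb : 0 ≤ b) :
    (lw (lap s q)) {x | |x 2 - z| ≤ b} ≤ ENNReal.ofReal (b / s) := by
  have hc : 0 < Real.sqrt 2 * s := mul_pos (Real.sqrt_pos.2 two_pos) hs
  have hcont2 : Continuous fun x : E => x 2 := (EuclideanSpace.proj 2 : E →L[ℝ] ℝ).continuous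
  have hS : MeasurableSet {x : E | |x 2 - z| ≤ b} :=
    (isClosed_le (hcont2.sub continuous_const).abs continuous_const).measurableSet
  have hD : 0 < 8 * Real.pi * s ^ 3 := by positivity
  unfold lw
  rw [withDensity_apply _ hS, ← lintegral_indicator hS]
  -- the integrable functions of one variable
  have hint : ∀ i, Integrable (slb_f (Real.sqrt 2 * s) b z q i) := by
    intro i
    fin_cases i
    · exact slb_int hc _
    · exact slb_int hc _
    · exact (slb_ind z hb).1
  have hprod : Integrable fun y : Fin 3 → ℝ => ∏ i, slb_f (Real.sqrt 2 * s) b z q i (y i) :=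
    Integrable.fintype_prod hint
  have hnn : ∀ y : Fin 3 → ℝ, 0 ≤ ∏ i, slb_f (Real.sqrt 2 * s) b z q i (y i) := by
    intro y
    refine Finset.prod_nonneg fun i _ => ?_
    fin_cases i
    · exact (Real.exp_pos _).le
    · exact (Real.exp_pos _).le
    · exact Set.indicator_nonneg (fun _ _ => zero_le_one) _
  have hval : ∫ y : Fin 3 → ℝ, ∏ i, slb_f (Real.sqrt 2 * s) b z q i (y i) =
      (2 * (Real.sqrt 2 * s)) * (2 * (Real.sqrt 2 * s)) * (2 * b) := by
    rw [integral_fintype_prod_volume_eq_prod, Fin.prod_univ_three]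
    have e0 : ∫ x, slb_f (Real.sqrt 2 * s) b z q 0 x = 2 * (Real.sqrt 2 * s) := slb_exp hc _
    have e1 : ∫ x, slb_f (Real.sqrt 2 * s) b z q 1 x = 2 * (Real.sqrt 2 * s) := slb_exp hc _
    have e2 : ∫ x, slb_f (Real.sqrt 2 * s) b z q 2 x = 2 * b := (slb_ind z hb).2
    rw [e0, e1, e2]
  have hpt : ∀ x : E, {x : E | |x 2 - z| ≤ b}.indicator (fun x => (lap s q x : ℝ≥0∞)) x ≤
      ENNReal.ofReal ((8 * Real.pi * s ^ 3)⁻¹ *
        ∏ i, slb_f (Real.sqrt 2 * s) b z q i (WithLp.ofLp x i)) := by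
    intro x
    by_cases hx : |x 2 - z| ≤ b
    · rw [Set.indicator_of_mem (show x ∈ {x : E | |x 2 - z| ≤ b} from hx)]
      have h2 : slb_f (Real.sqrt 2 * s) b z q 2 (WithLp.ofLp x 2) = 1 := by
        show Set.indicator {x : ℝ | |x - z| ≤ b} (fun _ => (1 : ℝ)) (x 2) = 1
        rw [Set.indicator_of_mem (show x 2 ∈ {x : ℝ | |x - z| ≤ b} from hx)]
      rw [Fin.prod_univ_three, h2, mul_one]
      show ENNReal.ofReal (Real.exp (-(‖x - q‖ / s)) / (8 * Real.pi * s ^ 3)) ≤ _
      refine ENNReal.ofReal_le_ofReal ?_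
      rw [div_eq_inv_mul]
      refine mul_le_mul_of_nonneg_left ?_ (inv_pos.2 hD).le
      show Real.exp (-(‖x - q‖ / s)) ≤ Real.exp (-(|x 0 - q 0| / (Real.sqrt 2 * s))) *
        Real.exp (-(|x 1 - q 1| / (Real.sqrt 2 * s)))
      rw [← Real.exp_add]
      refine Real.exp_le_exp.2 ?_
      have h3 : (|x 0 - q 0| + |x 1 - q 1|) ≤ Real.sqrt 2 * ‖x - q‖ := by
        have h4 : ‖x - q‖ ^ 2 = (x 0 - q 0) ^ 2 + (x 1 - q 1) ^ 2 + (x 2 - q 2) ^ 2 := by
          rw [EuclideanSpace.norm_sq_eq, Fin.sum_univ_three]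
          simp [sq_abs]
        have h5 : (|x 0 - q 0| + |x 1 - q 1|) ^ 2 ≤ (Real.sqrt 2 * ‖x - q‖) ^ 2 := by
          rw [mul_pow, Real.sq_sqrt two_pos.le, h4]
          nlinarith [sq_abs (x 0 - q 0), sq_abs (x 1 - q 1), sq_nonneg (|x 0 - q 0| - |x 1 - q 1|),
            sq_nonneg (x 2 - q 2)]
        exact (le_abs_self _).trans (abs_le_of_sq_le_sq h5 (by positivity))
      have h6 : (|x 0 - q 0| + |x 1 - q 1|) / (Real.sqrt 2 * s) ≤ ‖x - q‖ / s := by
        rw [div_le_div_iff₀ hc hs]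
        nlinarith
      rw [add_div] at h6
      linarith
    · rw [Set.indicator_of_notMem (show x ∉ {x : E | |x 2 - z| ≤ b} from hx)]
      exact zero_le
  refine (lintegral_mono hpt).trans ?_
  have hmp := PiLp.volume_preserving_ofLp (Fin 3)
  have hint2 : Integrable fun x : E => (8 * Real.pi * s ^ 3)⁻¹ *
      ∏ i, slb_f (Real.sqrt 2 * s) b z q i (WithLp.ofLp x i) :=
    (hmp.integrable_comp_of_integrable hprod).const_mul _
  rw [← ofReal_integral_eq_lintegral_ofReal hint2
    (Filter.Eventually.of_forall fun x => mul_nonneg (inv_pos.2 hD).le (hnn _)), integral_const_mul]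
  refine ENNReal.ofReal_le_ofReal ?_
  have hI : ∫ x : E, ∏ i, slb_f (Real.sqrt 2 * s) b z q i (WithLp.ofLp x i) =
      (2 * (Real.sqrt 2 * s)) * (2 * (Real.sqrt 2 * s)) * (2 * b) := by
    rw [← hval]
    exact (EuclideanSpace.volume_preserving_symm_measurableEquiv_toLp (Fin 3)).integral_comp'
      (fun y : Fin 3 → ℝ => ∏ i, slb_f (Real.sqrt 2 * s) b z q i (y i))
  rw [hI, ← div_eq_inv_mul, div_le_div_iff₀ hD hs]
  have h7 : Real.sqrt 2 ^ 2 = 2 := Real.sq_sqrt two_pos.le
  have h8 : 2 * (Real.sqrt 2 * s) * (2 * (Real.sqrt 2 * s)) * (2 * b) * s = 16 * b * s ^ 3 := by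
    calc 2 * (Real.sqrt 2 * s) * (2 * (Real.sqrt 2 * s)) * (2 * b) * s
        = 8 * (Real.sqrt 2 ^ 2) * b * s ^ 3 := by ring
      _ = 16 * b * s ^ 3 := by rw [h7]; ring
  rw [h8]
  have h9 : (2 : ℝ) ≤ Real.pi := by linarith [Real.pi_gt_three]
  have h10 : 0 ≤ b * s ^ 3 := by positivity
  nlinarith
-- END slb

-- BEGIN ct2
/-- The numbers `k/(4n)`, `k` of one parity, have distances `≥ 1/(2n)`: at most `2b · 2n + 1` of them in an interval of length `2b`. -/
theorem card_close {n : ℕ} (hn : 0 < n) (c : ℕ) (z : ℝ) {b : ℝ} (hb : 0 ≤ b) :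
    ((Finset.univ.filter fun k : Fin n => (k : ℕ) % 2 = c ∧ |z - (k : ℝ) / (4 * n)| ≤ b).card : ℝ) ≤
      4 * n * b + 1 := by
  have hn' : (0 : ℝ) < n := by exact_mod_cast hn
  set α : ℝ := (4 * n * z - 4 * n * b - c) / 2 with hα
  set β : ℝ := (4 * n * z + 4 * n * b - c) / 2 with hβ
  have h1 : (Finset.univ.filter fun k : Fin n => (k : ℕ) % 2 = c ∧ |z - (k : ℝ) / (4 * n)| ≤ b).card ≤
      (Finset.Icc ⌈α⌉ ⌊β⌋).card := by
    refine Finset.card_le_card_of_injOn (fun k => (((k : ℕ) / 2 : ℕ) : ℤ)) ?_ ?_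
    · intro k hk
      obtain ⟨hc, hz⟩ := (Finset.mem_filter.1 (Finset.mem_coe.1 hk)).2
      have h2 : (k : ℕ) = 2 * ((k : ℕ) / 2) + c := by omega
      have h3 : ((k : ℕ) : ℝ) = 2 * (((k : ℕ) / 2 : ℕ) : ℝ) + c := by exact_mod_cast h2
      have h4 : |4 * n * z - (k : ℝ)| ≤ 4 * n * b := by
        have h5 : 4 * n * z - (k : ℝ) = (4 * n) * (z - (k : ℝ) / (4 * n)) := by
          field_simp
        rw [h5, abs_mul, abs_of_pos (by positivity)]
        exact mul_le_mul_of_nonneg_left hz (by positivity)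
      obtain ⟨h6, h7⟩ := abs_le.1 h4
      rw [Finset.mem_coe, Finset.mem_Icc, Int.ceil_le, Int.le_floor]
      have h8 : ((((k : ℕ) / 2 : ℕ) : ℤ) : ℝ) = (((k : ℕ) / 2 : ℕ) : ℝ) := by push_cast; rfl
      rw [h8, hα, hβ]
      constructor
      · linarith
      · linarith
    · intro k hk l hl hkl
      have hc := (Finset.mem_filter.1 (Finset.mem_coe.1 hk)).2.1
      have hd := (Finset.mem_filter.1 (Finset.mem_coe.1 hl)).2.1
      have hkl' : (((k : ℕ) / 2 : ℕ) : ℤ) = (((l : ℕ) / 2 : ℕ) : ℤ) := hkl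
      have h2 : ((k : ℕ) / 2 : ℕ) = ((l : ℕ) / 2 : ℕ) := by exact_mod_cast hkl'
      exact Fin.ext (by omega)
  have h2 : ((Finset.Icc ⌈α⌉ ⌊β⌋).card : ℝ) ≤ 4 * n * b + 1 := by
    rw [Int.card_Icc]
    have h3 : (((⌊β⌋ + 1 - ⌈α⌉).toNat : ℤ)) ≤ max (⌊β⌋ + 1 - ⌈α⌉) 0 := le_of_eq (Int.toNat_eq_max _)
    have h4 : (((⌊β⌋ + 1 - ⌈α⌉).toNat : ℤ) : ℝ) ≤ ((max (⌊β⌋ + 1 - ⌈α⌉) 0 : ℤ) : ℝ) := by exact_mod_cast h3
    have h5 : ((⌊β⌋ + 1 - ⌈α⌉).toNat : ℝ) ≤ ((max (⌊β⌋ + 1 - ⌈α⌉) 0 : ℤ) : ℝ) := by exact_mod_cast h4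
    refine h5.trans ?_
    push_cast
    refine max_le ?_ (by positivity)
    have h6 := Int.floor_le β
    have h7 := Int.le_ceil α
    have h8 : β - α = 4 * n * b := by
      rw [hα, hβ]
      ring
    linarith
  exact (by exact_mod_cast h1 : ((Finset.univ.filter fun k : Fin n => (k : ℕ) % 2 = c ∧
    |z - (k : ℝ) / (4 * n)| ≤ b).card : ℝ) ≤ ((Finset.Icc ⌈α⌉ ⌊β⌋).card : ℝ)).trans h2
-- END ct2

-- BEGIN sm2
private theorem sm2_shift (s : ℝ) (q : E) {A : Set E} (hA : MeasurableSet A) :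
    (lw (lap s q)) A = (lw (lap s 0)) {w | w + q ∈ A} := by
  have hA' : MeasurableSet {w : E | w + q ∈ A} := hA.preimage (measurable_id.add_const q)
  unfold lw
  rw [withDensity_apply _ hA, withDensity_apply _ hA', ← lintegral_indicator hA,
    ← lintegral_indicator hA', ← lintegral_add_right_eq_self _ q]
  refine lintegral_congr fun w => ?_
  by_cases hw : w + q ∈ A
  · rw [indicator_of_mem hw, indicator_of_mem (show w ∈ {w : E | w + q ∈ A} from hw)]
    unfold lap
    rw [add_sub_cancel_right, sub_zero]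
  · rw [indicator_of_notMem hw, indicator_of_notMem (show w ∉ {w : E | w + q ∈ A} from hw)]

private theorem sm2_box (z : E) (m : Fin 3) (a b : ℝ) :
    MeasurableSet {x : E | |z m - x m - a| ≤ b ∧ |z 2 - x 2| ≤ b} := by
  have h1 : Continuous fun x : E => |z m - x m - a| := by fun_prop
  have h2 : Continuous fun x : E => |z 2 - x 2| := by fun_prop
  exact ((isClosed_le h1 continuous_const).inter (isClosed_le h2 continuous_const)).measurableSet

private theorem sm2_half {n : ℕ} (hn : 0 < n) {s : ℝ} (hs : 0 < s) (z : E) {b : ℝ} (hb : 0 ≤ b)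
    (c : ℕ) (m : Fin 3) (hc : ∀ k : Fin n, (k : ℕ) % 2 = c →
      (cq n k) m = (k : ℝ) / (4 * n) ∧ (cq n k) 2 = 0 ∧
        ∀ w : E, |w m| ≤ dl (axes n k) w ∧ |w 2| ≤ dl (axes n k) w) :
    ∑ k ∈ Finset.univ.filter (fun k : Fin n => (k : ℕ) % 2 = c),
      (lw (lap s (cq n k))) {x | dl (axes n k) (z - x) ≤ b} ≤
      ENNReal.ofReal ((4 * n * b + 1) * (b / s)) := by
  classical
  have hn0 : (0 : ℝ) ≤ n := Nat.cast_nonneg n
  have hC : (0 : ℝ) ≤ 4 * n * b + 1 := by positivity
  have h1 : ∀ k ∈ Finset.univ.filter (fun k : Fin n => (k : ℕ) % 2 = c),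
      (lw (lap s (cq n k))) {x | dl (axes n k) (z - x) ≤ b} ≤
        ∫⁻ w, {x : E | |z m - x m - (k : ℝ) / (4 * n)| ≤ b ∧ |z 2 - x 2| ≤ b}.indicator 1 w
          ∂(lw (lap s 0)) := by
    intro k hk
    obtain ⟨e1, e2, e3⟩ := hc k (Finset.mem_filter.1 hk).2
    rw [lintegral_indicator_one (sm2_box z m _ b)]
    have hbox := sm2_box z m 0 b
    refine (measure_mono (t := {x : E | |z m - x m - 0| ≤ b ∧ |z 2 - x 2| ≤ b}) ?_).trans ?_
    · intro x hx
      have h2 := e3 (z - x)
      rw [PiLp.sub_apply, PiLp.sub_apply] at h2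
      refine ⟨?_, h2.2.trans hx⟩
      rw [sub_zero]
      exact h2.1.trans hx
    · rw [sm2_shift s (cq n k) hbox]
      refine le_of_eq (congrArg _ ?_)
      ext w
      simp only [Set.mem_ofPred_eq, PiLp.add_apply, e1, e2, add_zero, sub_zero, sub_sub]
  refine (Finset.sum_le_sum h1).trans ?_
  rw [← lintegral_finsetSum _ (fun k _ => measurable_one.indicator (sm2_box z m _ b))]
  have h3 : ∀ w : E, ∑ k ∈ Finset.univ.filter (fun k : Fin n => (k : ℕ) % 2 = c),
      ({x : E | |z m - x m - (k : ℝ) / (4 * n)| ≤ b ∧ |z 2 - x 2| ≤ b}.indicator 1 w : ℝ≥0∞) ≤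
      {x : E | |x 2 - z 2| ≤ b}.indicator (fun _ => ENNReal.ofReal (4 * n * b + 1)) w := by
    intro w
    by_cases hw : |w 2 - z 2| ≤ b
    · rw [indicator_of_mem (show w ∈ {x : E | |x 2 - z 2| ≤ b} from hw)]
      have h4 : ∀ k : Fin n, ({x : E | |z m - x m - (k : ℝ) / (4 * n)| ≤ b ∧
          |z 2 - x 2| ≤ b}.indicator 1 w : ℝ≥0∞) =
          if |z m - w m - (k : ℝ) / (4 * n)| ≤ b then 1 else 0 := by
        intro k
        by_cases hk : |z m - w m - (k : ℝ) / (4 * n)| ≤ b
        · rw [if_pos hk]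
          refine indicator_of_mem ?_ _
          refine ⟨hk, ?_⟩
          rw [abs_sub_comm]
          exact hw
        · rw [if_neg hk]
          exact indicator_of_notMem (fun h => hk h.1) _
      rw [Finset.sum_congr rfl fun k _ => h4 k, Finset.sum_boole, Finset.filter_filter]
      have h5 := card_close hn c (z m - w m) hb
      rw [← ENNReal.ofReal_natCast]
      exact ENNReal.ofReal_le_ofReal h5
    · rw [indicator_of_notMem (show w ∉ {x : E | |x 2 - z 2| ≤ b} from hw)]
      refine le_of_eq (Finset.sum_eq_zero fun k _ => ?_)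
      refine indicator_of_notMem (fun h => hw ?_) _
      rw [abs_sub_comm]
      exact h.2
  refine (lintegral_mono h3).trans ?_
  have hm2 : MeasurableSet {x : E | |x 2 - z 2| ≤ b} := by
    have h2 : Continuous fun x : E => |x 2 - z 2| := by fun_prop
    exact (isClosed_le h2 continuous_const).measurableSet
  rw [lintegral_indicator hm2, setLIntegral_const, ENNReal.ofReal_mul hC]
  exact mul_le_mul_right (slab_mass hs 0 (z 2) hb) _

private theorem sm2_dl (i j : Fin 3) (hij : j ≠ i) (w : E) :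
    |w j| ≤ dl (EuclideanSpace.single i 1) w := by
  unfold dl
  have h1 : (w - (inner ℝ (EuclideanSpace.single i (1 : ℝ)) w) • (EuclideanSpace.single i (1 : ℝ) : E)) j =
      w j := by
    rw [PiLp.sub_apply, PiLp.smul_apply, PiLp.single_apply, if_neg hij, smul_zero, sub_zero]
  rw [← h1, ← Real.norm_eq_abs]
  exact PiLp.norm_apply_le _ j

/-- For even `k`: `dl (axes n k) (z - x) ≤ b` gives `|z 1 - x 1| ≤ b` and `|z 2 - x 2| ≤ b`; `lw (lap s (cq n k))` is the translate of `lw (lap s 0)` by `cq n k = single 1 (k/(4n))`. Sum over the even `k` inside the integral over `lw (lap s 0)`: row ct2, then row slb: `≤ (4nb + 1) b/s`. The same for odd `k` with the coordinate 0. -/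
theorem sum_close {n : ℕ} (hn : 0 < n) {s : ℝ} (hs : 0 < s) (z : E) {b : ℝ} (hb : 0 ≤ b) :
    ∑ k : Fin n, (lw (lap s (cq n k))) {x | dl (axes n k) (z - x) ≤ b} ≤
      ENNReal.ofReal (2 * (4 * n * b + 1) * (b / s)) := by
  have hC : (0 : ℝ) ≤ (4 * n * b + 1) * (b / s) := by positivity
  have h0 := sm2_half hn hs z hb 0 1 (by
    intro k hk
    unfold cq axes
    rw [if_pos hk, if_pos hk]
    refine ⟨?_, ?_, fun w => ⟨sm2_dl 0 1 (by decide) w, sm2_dl 0 2 (by decide) w⟩⟩
    · rw [PiLp.single_apply, if_pos rfl]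
    · rw [PiLp.single_apply, if_neg (by decide)])
  have h1 := sm2_half hn hs z hb 1 0 (by
    intro k hk
    have hk' : ¬ (k : ℕ) % 2 = 0 := by omega
    unfold cq axes
    rw [if_neg hk', if_neg hk']
    refine ⟨?_, ?_, fun w => ⟨sm2_dl 1 0 (by decide) w, sm2_dl 1 2 (by decide) w⟩⟩
    · rw [PiLp.single_apply, if_pos rfl]
    · rw [PiLp.single_apply, if_neg (by decide)])
  rw [← Finset.sum_filter_add_sum_filter_not Finset.univ (fun k : Fin n => (k : ℕ) % 2 = 0)]
  have h2 : (Finset.univ.filter fun k : Fin n => ¬ (k : ℕ) % 2 = 0) =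
      Finset.univ.filter fun k : Fin n => (k : ℕ) % 2 = 1 := by
    refine Finset.filter_congr fun k _ => ?_
    omega
  rw [h2]
  refine (add_le_add h0 h1).trans (le_of_eq ?_)
  rw [← ENNReal.ofReal_add hC hC]
  congr 1
  ring
-- END sm2

-- BEGIN pe2
private theorem pe2_sum {α β : Type*} [MeasurableSpace α] (P : Measure α) (S : Finset β)
    (f : β → α → ℝ≥0∞) : ∑ k ∈ S, ∫⁻ p, f k p ∂P ≤ ∫⁻ p, ∑ k ∈ S, f k p ∂P := by
  classical
  induction S using Finset.induction_on with
  | empty => simp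
  | insert a S ha ih =>
    rw [Finset.sum_insert ha]
    have h1 : ∫⁻ p, ∑ k ∈ insert a S, f k p ∂P = ∫⁻ p, (f a p + ∑ k ∈ S, f k p) ∂P :=
      lintegral_congr fun p => Finset.sum_insert ha
    rw [h1]
    exact (add_le_add le_rfl ih).trans (le_lintegral_add _ _)

private theorem pe2_B {n : ℕ} {s : ℝ} (hs : 0 < s) (r t : ℝ) {i j k : Fin n} (hki : k ≠ i)
    (hkj : k ≠ j) :
    (Measure.pi fun i => lw (lap s (cq n i)))
        {p | A2 n r t p i j ∧ dl (axes n k) (xp p i j - p k) ≤ 3 * t} =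
      ∫⁻ p, ({p | A2 n r t p i j} : Set (Fin n → E)).indicator
        (fun p => (lw (lap s (cq n k))) {x | dl (axes n k) (xp p i j - x) ≤ 3 * t}) p
        ∂(Measure.pi fun i => lw (lap s (cq n i))) := by
  have hprob : ∀ i, IsProbabilityMeasure (lw (lap s (cq n i))) := fun i =>
    Pool.Agent.Vor.main_prob (lap_int hs (cq n i))
  obtain ⟨_, _, hB⟩ := measurableSet_E2 n r t i j
  replace hB := hB k
  set B : Set (Fin n → E) := {p | A2 n r t p i j ∧ dl (axes n k) (xp p i j - p k) ≤ 3 * t}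
    with hBdef
  rw [← lintegral_indicator_one hB,
    Pool.Agent.Vlb.lintegral_update (fun i => lw (lap s (cq n i))) k _ (measurable_one.indicator hB)]
  refine lintegral_congr fun p => ?_
  have hi' : ∀ x, Function.update p k x i = p i := fun x => Function.update_of_ne hki.symm _ _
  have hj' : ∀ x, Function.update p k x j = p j := fun x => Function.update_of_ne hkj.symm _ _
  have hk' : ∀ x, Function.update p k x k = x := fun x => Function.update_self _ _ _
  have hA' : ∀ x, A2 n r t (Function.update p k x) i j ↔ A2 n r t p i j := by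
    intro x
    unfold A2
    rw [hi', hj']
  have hx' : ∀ x, xp (Function.update p k x) i j = xp p i j := by
    intro x
    unfold xp
    rw [hi', hj']
  by_cases hp : A2 n r t p i j
  · rw [indicator_of_mem (show p ∈ ({p | A2 n r t p i j} : Set (Fin n → E)) from hp)]
    have hsub : ∀ x, B.indicator (1 : (Fin n → E) → ℝ≥0∞) (Function.update p k x) =
        ({x | dl (axes n k) (xp p i j - x) ≤ 3 * t} : Set E).indicator 1 x := by
      intro x
      have : Function.update p k x ∈ B ↔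
          x ∈ ({x | dl (axes n k) (xp p i j - x) ≤ 3 * t} : Set E) := by
        rw [hBdef, mem_setOf_eq, mem_setOf_eq, hA', hx', hk']
        exact ⟨fun h => h.2, fun h => ⟨hp, h⟩⟩
      by_cases hx : Function.update p k x ∈ B
      · rw [indicator_of_mem hx, indicator_of_mem (this.1 hx)]
        rfl
      · rw [indicator_of_notMem hx, indicator_of_notMem fun h => hx (this.2 h)]
    simp only [hsub]
    have hdl : Continuous fun w : E => dl (axes n k) w := by
      unfold Vor.dl
      fun_prop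
    have hS : MeasurableSet {x : E | dl (axes n k) (xp p i j - x) ≤ 3 * t} :=
      measurableSet_le (hdl.comp (continuous_const.sub continuous_id)).measurable measurable_const
    rw [lintegral_indicator_one hS]
  · rw [indicator_of_notMem (show p ∉ ({p | A2 n r t p i j} : Set (Fin n → E)) from hp)]
    have hz : ∀ x, B.indicator (1 : (Fin n → E) → ℝ≥0∞) (Function.update p k x) = 0 := by
      intro x
      refine indicator_of_notMem (fun h => hp ?_) _
      exact (hA' x).1 h.1
    simp only [hz, lintegral_zero]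

/-- As `Vlb.prob_Ev`: `A2 ⊆ E2 ∪ ⋃_{k ≠ i, j} (A2 ∧ dl ≤ 3t)`; the measure of `A2 ∧ dl (axes n k) (xp p i j - p k) ≤ 3t` is `∫ 1_{A2}(p) (lw (lap s (cq n k))) {x | dl (axes n k) (xp p i j - x) ≤ 3t}` (`Vlb.lintegral_update`, `A2` and `xp p i j` do not depend on the coordinate `k`); sum over `k` inside the integral, row sm2 with `b = 3t`: `≤ (72 n t²/s + 6 t/s) P(A2) ≤ P(A2)/2`. -/
theorem prob_E2 {n : ℕ} (hn : 0 < n) {s : ℝ} (hs : 0 < s) (hs1 : s ≤ 1) {i j : Fin n} (hij : i ≠ j)
    {t : ℝ} (ht : 0 < t) (hts : t ≤ s / 64) (htn : 144 * n * t ^ 2 + 12 * t ≤ s) :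
    ENNReal.ofReal (t / s / 2000000000) ≤ (Measure.pi fun i => lw (lap s (cq n i)))
      {p | E2 n (min s (1 / 8)) t p i j} := by
  have hprob : ∀ i, IsProbabilityMeasure (lw (lap s (cq n i))) := fun i =>
    Pool.Agent.Vor.main_prob (lap_int hs (cq n i))
  have hpA := prob_A2 hs hs1 hij ht hts
  have hpB : ∀ k, k ≠ i → k ≠ j → _ := fun k hki hkj =>
    pe2_B (n := n) hs (min s (1 / 8)) t (i := i) (j := j) (k := k) hki hkj
  obtain ⟨_, hAm, _⟩ := measurableSet_E2 n (min s (1 / 8)) t i j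
  generalize min s (1 / 8) = r at *
  set P := Measure.pi fun i => lw (lap s (cq n i)) with hP
  set A : Set (Fin n → E) := {p | A2 n r t p i j} with hAdef
  have hsub : A ⊆ {p | E2 n r t p i j} ∪ ⋃ k ∈ (Finset.univ.filter fun k : Fin n => k ≠ i ∧ k ≠ j),
      {p | A2 n r t p i j ∧ dl (axes n k) (xp p i j - p k) ≤ 3 * t} := by
    intro p hp
    by_cases h : p ∈ {p | E2 n r t p i j}
    · exact Or.inl h
    · right
      have h2 : ¬ ∀ k, k ≠ i → k ≠ j → 3 * t < dl (axes n k) (xp p i j - p k) :=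
        fun h3 => h ⟨hp, h3⟩
      push Not at h2
      obtain ⟨k, hki, hkj, hk⟩ := h2
      rw [mem_iUnion₂]
      exact ⟨k, by simp [hki, hkj], hp, hk⟩
  have h3 : P A ≤ P {p | E2 n r t p i j} + ENNReal.ofReal (1 / 2) * P A := by
    refine (measure_mono hsub).trans ((measure_union_le _ _).trans ?_)
    refine add_le_add le_rfl ?_
    refine (measure_biUnion_finset_le _ _).trans ?_
    have h4 : ∑ k ∈ (Finset.univ.filter fun k : Fin n => k ≠ i ∧ k ≠ j),
        P {p | A2 n r t p i j ∧ dl (axes n k) (xp p i j - p k) ≤ 3 * t} =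
        ∑ k ∈ (Finset.univ.filter fun k : Fin n => k ≠ i ∧ k ≠ j),
          ∫⁻ p, A.indicator
            (fun p => (lw (lap s (cq n k))) {x | dl (axes n k) (xp p i j - x) ≤ 3 * t}) p ∂P := by
      refine Finset.sum_congr rfl fun k hk => ?_
      rw [Finset.mem_filter] at hk
      exact hpB k hk.2.1 hk.2.2
    rw [h4]
    refine (pe2_sum P _ _).trans ?_
    rw [← lintegral_indicator_const hAm]
    refine lintegral_mono fun p => ?_
    by_cases hp : p ∈ A
    · rw [indicator_of_mem hp]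
      have h5 : ∑ k ∈ (Finset.univ.filter fun k : Fin n => k ≠ i ∧ k ≠ j), A.indicator
            (fun p => (lw (lap s (cq n k))) {x | dl (axes n k) (xp p i j - x) ≤ 3 * t}) p =
          ∑ k ∈ (Finset.univ.filter fun k : Fin n => k ≠ i ∧ k ≠ j),
            (lw (lap s (cq n k))) {x | dl (axes n k) (xp p i j - x) ≤ 3 * t} :=
        Finset.sum_congr rfl fun k _ => indicator_of_mem hp _
      show ∑ k ∈ (Finset.univ.filter fun k : Fin n => k ≠ i ∧ k ≠ j), A.indicator
            (fun p => (lw (lap s (cq n k))) {x | dl (axes n k) (xp p i j - x) ≤ 3 * t}) p ≤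
          ENNReal.ofReal (1 / 2)
      rw [h5]
      refine (Finset.sum_le_univ_sum_of_nonneg fun k => zero_le).trans ?_
      refine (sum_close hn hs (xp p i j) (b := 3 * t) (by positivity)).trans ?_
      apply ENNReal.ofReal_le_ofReal
      have h6 : 2 * (4 * (n : ℝ) * (3 * t) + 1) * (3 * t / s) =
          (144 * n * t ^ 2 + 12 * t) / s * (1 / 2) := by
        field_simp
        ring
      rw [h6]
      have h7 : (144 * (n : ℝ) * t ^ 2 + 12 * t) / s ≤ 1 := (div_le_one hs).2 htn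
      linarith
    · rw [indicator_of_notMem hp]
      refine le_of_eq (Finset.sum_eq_zero fun k _ => ?_)
      exact indicator_of_notMem hp _
  have hfin : P A ≠ ∞ := measure_ne_top _ _
  have hfin2 : P {p | E2 n r t p i j} ≠ ∞ := measure_ne_top _ _
  obtain ⟨α, hα⟩ : ∃ α : ℝ, α = (P A).toReal := ⟨_, rfl⟩
  obtain ⟨β, hβ⟩ : ∃ β : ℝ, β = (P {p | E2 n r t p i j}).toReal := ⟨_, rfl⟩
  have hα0 : 0 ≤ α := hα ▸ ENNReal.toReal_nonneg
  have hβ0 : 0 ≤ β := hβ ▸ ENNReal.toReal_nonneg
  have hA' : P A = ENNReal.ofReal α := by rw [hα, ENNReal.ofReal_toReal hfin]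
  have hE' : P {p | E2 n r t p i j} = ENNReal.ofReal β := by rw [hβ, ENNReal.ofReal_toReal hfin2]
  rw [hA', hE', ← ENNReal.ofReal_mul (by norm_num), ← ENNReal.ofReal_add hβ0 (by positivity),
    ENNReal.ofReal_le_ofReal_iff (by positivity)] at h3
  have hpA' : ENNReal.ofReal (t / s / 1000000000) ≤ P A := hpA
  rw [hA'] at hpA'
  rw [hE']
  have h4 : t / s / 1000000000 ≤ α := (ENNReal.ofReal_le_ofReal_iff hα0).1 hpA'
  apply ENNReal.ofReal_le_ofReal
  linarith
-- END pe2

-- BEGIN lo2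
private theorem lo2_prob {s : ℝ} (hs : 0 < s) (q : E) : IsProbabilityMeasure (lw (lap s q)) := by
  refine ⟨?_⟩
  unfold lw
  rw [withDensity_apply _ MeasurableSet.univ, Measure.restrict_univ]
  exact lap_int hs q

/-- `n = 1`: `s = 1`, `G = 1` (`Vlb.one_le`). `n ≥ 2`: `t = √(s/n)/64`: `t ≤ s/64` as `1/n ≤ s`, `t ≤ 1/64`, `144 n t² + 12 t ≤ (144/4096 + 12/64) s ≤ s`. `G p = ∑ i ∈ evens n, ∑ j ∈ odds n, if E2 .. then 1 else 0` (rows in2, ev2, me2), `Vlb.card_pairs`: `∫ G ≥ (n²/6) t/(2 · 10^9 s) = c n^(3/2) / √s`. -/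
theorem lower_small : ∃ c : ℝ, 0 < c ∧ ∀ (n : ℕ) (s : ℝ), 0 < n → 1 / (n : ℝ) ≤ s → s ≤ 1 →
    ∃ G : (Fin n → E) → ℝ≥0∞, Measurable G ∧
      (∀ p, G p ≤ (({f | f ∈ Faces (axes n) p ∧ (f ∩ Metric.closedBall 0 1).Nonempty}.encard : ℕ∞) :
        ℝ≥0∞)) ∧
      ENNReal.ofReal (c * (n ^ (3 / 2 : ℝ) / Real.sqrt s)) ≤
        ∫⁻ p, G p ∂(Measure.pi fun i => lw (lap s (cq n i))) := by
  classical
  refine ⟨1 / 10 ^ 12, by norm_num, fun n s hn hns hs1 => ?_⟩
  have hnr : (1 : ℝ) ≤ n := by exact_mod_cast hn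
  have hn0 : (0 : ℝ) < n := by linarith
  have hs : 0 < s := lt_of_lt_of_le (by positivity) hns
  have hprob : ∀ i : Fin n, IsProbabilityMeasure (lw (lap s (cq n i))) := fun i => lo2_prob hs _
  by_cases hn2 : n < 2
  · have hn1 : n = 1 := by omega
    subst hn1
    refine ⟨fun _ => 1, measurable_const,
      fun p => Vlb.one_le (axes 1) p (Metric.mem_closedBall_self zero_le_one), ?_⟩
    rw [lintegral_const, measure_univ, one_mul, ← ENNReal.ofReal_one]
    apply ENNReal.ofReal_le_ofReal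
    have hs' : s = 1 := le_antisymm hs1 (by simpa using hns)
    rw [hs', Nat.cast_one, Real.one_rpow, Real.sqrt_one]
    norm_num
  · push Not at hn2
    obtain ⟨hcp, hdis⟩ := Vlb.card_pairs hn2
    have hsn : 0 < s / n := by positivity
    obtain ⟨t, htdef⟩ : ∃ t : ℝ, t = Real.sqrt (s / n) / 64 := ⟨_, rfl⟩
    have hq0 : 0 < Real.sqrt (s / n) := Real.sqrt_pos.2 hsn
    have ht : 0 < t := by
      rw [htdef]
      positivity
    have hns' : 1 ≤ s * n := by
      rw [div_le_iff₀ hn0] at hns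
      exact hns
    have hqs : Real.sqrt (s / n) ≤ s := by
      rw [Real.sqrt_le_left hs.le, div_le_iff₀ hn0]
      nlinarith
    have hts : t ≤ s / 64 := by
      rw [htdef]
      linarith
    have htsq : t ^ 2 = s / n / 4096 := by
      rw [htdef, div_pow, Real.sq_sqrt hsn.le]
      norm_num
    have htn : 144 * n * t ^ 2 + 12 * t ≤ s := by
      have h1 : 144 * (n : ℝ) * t ^ 2 = 144 / 4096 * s := by
        rw [htsq]
        field_simp
      rw [h1]
      linarith
    have hax : ∀ i : Fin n, ‖axes n i‖ = 1 := by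
      intro i
      unfold axes
      split_ifs
      · rw [PiLp.norm_single, norm_one]
      · rw [PiLp.norm_single, norm_one]
    refine ⟨fun p => ∑ i ∈ evens n, ∑ j ∈ odds n,
      if E2 n (min s (1 / 8)) t p i j then (1 : ℝ≥0∞) else 0, ?_, ?_, ?_⟩
    · refine Finset.measurable_sum _ fun i _ => Finset.measurable_sum _ fun j _ => ?_
      exact Measurable.ite (measurableSet_E2 n _ t i j).1 measurable_const measurable_const
    · intro p
      exact pairs_le2 (evens n) (odds n) hdis (fun i j => E2 n (min s (1 / 8)) t p i j)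
        (fun i hi j hj h => exists_E2 (min_le_right _ _) ht (by linarith) hi hj h)
    · have hmeas : ∀ i j : Fin n, Measurable fun p : Fin n → E =>
          if E2 n (min s (1 / 8)) t p i j then (1 : ℝ≥0∞) else 0 := fun i j =>
        Measurable.ite (measurableSet_E2 n _ t i j).1 measurable_const measurable_const
      have hint : ∀ i j : Fin n, ∫⁻ p, (if E2 n (min s (1 / 8)) t p i j then (1 : ℝ≥0∞) else 0)
          ∂(Measure.pi fun i => lw (lap s (cq n i))) =
          (Measure.pi fun i => lw (lap s (cq n i))) {p | E2 n (min s (1 / 8)) t p i j} := by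
        intro i j
        rw [← lintegral_indicator_one (measurableSet_E2 n _ t i j).1]
        apply lintegral_congr
        intro p
        by_cases hE : E2 n (min s (1 / 8)) t p i j
        · rw [if_pos hE, Set.indicator_of_mem (show p ∈ {p | E2 n (min s (1 / 8)) t p i j} from hE)]
          rfl
        · rw [if_neg hE,
            Set.indicator_of_notMem (show p ∉ {p | E2 n (min s (1 / 8)) t p i j} from hE)]
      rw [lintegral_finsetSum _ (fun i _ => Finset.measurable_sum _ fun j _ => hmeas i j)]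
      have hterm : ∀ i ∈ evens n, ∑ j ∈ odds n, ENNReal.ofReal (t / s / 2000000000) ≤
          ∫⁻ p, ∑ j ∈ odds n, (if E2 n (min s (1 / 8)) t p i j then (1 : ℝ≥0∞) else 0)
            ∂(Measure.pi fun i => lw (lap s (cq n i))) := by
        intro i hi
        rw [lintegral_finsetSum _ (fun j _ => hmeas i j)]
        refine Finset.sum_le_sum fun j hj => ?_
        rw [hint i j]
        refine prob_E2 hn hs hs1 ?_ ht hts htn
        rintro rfl
        exact Finset.disjoint_left.1 hdis hi hj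
      refine le_trans ?_ (Finset.sum_le_sum hterm)
      rw [Finset.sum_const, Finset.sum_const, smul_smul, nsmul_eq_mul, ← ENNReal.ofReal_natCast,
        ← ENNReal.ofReal_mul (Nat.cast_nonneg _)]
      apply ENNReal.ofReal_le_ofReal
      push_cast
      have hss : 0 < Real.sqrt s := Real.sqrt_pos.2 hs
      have hsq : 0 < Real.sqrt n := Real.sqrt_pos.2 hn0
      have hrp : (n : ℝ) ^ (3 / 2 : ℝ) = (n : ℝ) ^ 2 / Real.sqrt n := by
        rw [eq_div_iff hsq.ne', Real.sqrt_eq_rpow, ← Real.rpow_add hn0]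
        norm_num
      have hte : t / s / 2000000000 = 1 / (Real.sqrt n * Real.sqrt s) / 128000000000 := by
        rw [htdef, Real.sqrt_div' s hn0.le]
        have h1 : s = Real.sqrt s * Real.sqrt s := (Real.mul_self_sqrt hs.le).symm
        have h2 : Real.sqrt s / Real.sqrt n / 64 / s = 1 / (Real.sqrt n * Real.sqrt s) / 64 := by
          rw [div_div, div_div, div_div, div_eq_div_iff (by positivity) (by positivity)]
          nlinarith
        rw [h2]
        ring
      have h3 : (0 : ℝ) ≤ t / s / 2000000000 := by positivity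
      refine le_trans ?_ (mul_le_mul_of_nonneg_right hcp h3)
      rw [hte, hrp]
      have h4 : (n : ℝ) ^ 2 / 6 * (1 / (Real.sqrt n * Real.sqrt s) / 128000000000) =
          1 / 768000000000 * ((n : ℝ) ^ 2 / Real.sqrt n / Real.sqrt s) := by
        field_simp
        norm_num
      rw [h4]
      refine mul_le_mul_of_nonneg_right (by norm_num) (by positivity)
-- END lo2

end Pool.Agent.Vsn
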