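import Pool.Agent.Vsn.Good

/-!
Dyadic cells: the number of bad cells, the covering by good cells of variable size
-/

set_option autoImplicit false

namespace Pool.Agent.Vsn

open MeasureTheory Set
open scoped ENNReal NNReal
open Pool.Agent.Vor (E dl line wt Near Faces)

/-- the centre of the cell number `k` of side `δ` -/
noncomputable def ctr (δ : ℝ) (k : Fin 3 → ℤ) : E := WithLp.toLp 2 fun c => ((k c : ℝ) + 1 / 2) * δ

/-- the range of the cells -/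
noncomputable def rng (δ : ℝ) : Finset (Fin 3 → ℤ) :=
  Fintype.piFinset fun _ => Finset.Icc (-⌊2 / δ⌋) ⌊2 / δ⌋

open Classical in
/-- the bad cells of side `δ` -/
noncomputable def bad {n : ℕ} (u : Fin n → E) (f : Fin n → E → ℝ≥0) (δ : ℝ) : Finset (Fin 3 → ℤ) :=
  (rng δ).filter fun k => 18 < ∑ i, ms (u i) (f i) (ctr δ k) (41 * δ)

-- BEGIN cel
/-- `|x c| ≤ ‖x‖ ≤ 1`; `⌈1/δ⌉ ≤ ⌊2/δ⌋` as `1/δ + 1 ≤ 2/δ`; `Int.floor_le`, `Int.lt_floor_add_one`. -/
theorem cell_of {δ : ℝ} (hδ : 0 < δ) (hδ1 : δ ≤ 1) {x : E} (hx : ‖x‖ ≤ 1) :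
    (fun c => ⌊x c / δ⌋) ∈ rng δ ∧ ∀ c, |x c - ctr δ (fun c => ⌊x c / δ⌋) c| ≤ δ / 2 := by
  have h1 : ∀ c, |x c| ≤ 1 := by
    intro c
    have h2 : ‖x c‖ ≤ ‖x‖ := PiLp.norm_apply_le x c
    rw [Real.norm_eq_abs] at h2
    exact h2.trans hx
  have h3 : 1 ≤ 1 / δ := by
    rw [le_div_iff₀ hδ]
    linarith
  have h4 : 2 / δ = 2 * (1 / δ) := by ring
  constructor
  · unfold rng
    rw [Fintype.mem_piFinset]
    intro c
    rw [Finset.mem_Icc]
    have h5 := abs_le.1 (h1 c)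
    have h6 : x c / δ ≤ 1 / δ := div_le_div_of_nonneg_right h5.2 hδ.le
    have h7 : -(1 / δ) ≤ x c / δ := by
      have h8 : (-1) / δ ≤ x c / δ := div_le_div_of_nonneg_right h5.1 hδ.le
      rw [neg_div] at h8
      exact h8
    constructor
    · rw [Int.le_floor]
      have h9 := Int.lt_floor_add_one (2 / δ)
      push_cast
      linarith
    · exact Int.floor_le_floor (by linarith)
  · intro c
    have h5 : ctr δ (fun c => ⌊x c / δ⌋) c = ((⌊x c / δ⌋ : ℝ) + 1 / 2) * δ := rfl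
    have h6 := Int.floor_le (x c / δ)
    have h7 := Int.lt_floor_add_one (x c / δ)
    have h8 : x c = x c / δ * δ := by
      field_simp
    obtain ⟨y, hy⟩ : ∃ y : ℝ, y = x c / δ := ⟨_, rfl⟩
    rw [h5]
    rw [← hy] at h6 h7 h8 ⊢
    rw [h8]
    have h9 : y * δ - ((⌊y⌋ : ℝ) + 1 / 2) * δ = (y - ⌊y⌋ - 1 / 2) * δ := by ring
    rw [h9, abs_mul, abs_of_pos hδ]
    have h10 : |y - ⌊y⌋ - 1 / 2| ≤ 1 / 2 := by
      rw [abs_le]
      constructor <;> linarith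
    calc |y - ⌊y⌋ - 1 / 2| * δ ≤ 1 / 2 * δ := mul_le_mul_of_nonneg_right h10 hδ.le
      _ = δ / 2 := by ring
-- END cel

-- BEGIN rct
/-- `Fintype.card_piFinset`, `Int.card_Icc`: `2 ⌊2/δ⌋ + 1 ≤ 5/δ`. -/
theorem card_rng {δ : ℝ} (hδ : 0 < δ) (hδ1 : δ ≤ 1) : ((rng δ).card : ℝ) ≤ (5 / δ) ^ 3 := by
  have hf : 0 ≤ ⌊2 / δ⌋ := Int.floor_nonneg.mpr (by positivity)
  have h1 : (⌊2 / δ⌋ : ℝ) ≤ 2 / δ := Int.floor_le _
  have hcard : ((Finset.Icc (-⌊2 / δ⌋) ⌊2 / δ⌋).card : ℝ) ≤ 5 / δ := by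
    rw [Int.card_Icc]
    have h2 : (((⌊2 / δ⌋ + 1 - -⌊2 / δ⌋).toNat : ℤ)) = 2 * ⌊2 / δ⌋ + 1 := by
      rw [Int.toNat_of_nonneg (by omega)]
      ring
    have h3 : (((⌊2 / δ⌋ + 1 - -⌊2 / δ⌋).toNat : ℕ) : ℝ) = 2 * (⌊2 / δ⌋ : ℝ) + 1 := by
      exact_mod_cast h2
    rw [h3]
    have h4 : 1 ≤ 1 / δ := one_le_one_div hδ hδ1
    have h5 : 5 / δ = 5 * (1 / δ) := by ring
    have h6 : 2 / δ = 2 * (1 / δ) := by ring
    have h7 : (⌊2 / δ⌋ : ℝ) ≤ 2 * (1 / δ) := h1.trans h6.le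
    rw [h5]
    linarith
  unfold rng
  rw [Fintype.card_piFinset, Finset.prod_const, Finset.card_univ, Fintype.card_fin, Nat.cast_pow]
  exact pow_le_pow_left₀ (Nat.cast_nonneg _) hcard 3
-- END rct

-- BEGIN chl
private theorem chl_floor (y : ℝ) : ∃ b : Fin 2, ⌊2 * y⌋ = 2 * ⌊y⌋ + (((b : Fin 2) : ℕ) : ℤ) := by
  have h1 := Int.floor_le y
  have h2 := Int.lt_floor_add_one y
  rcases lt_or_ge (2 * y) (2 * (⌊y⌋ : ℝ) + 1) with h | h
  · refine ⟨0, Int.floor_eq_iff.2 ⟨?_, ?_⟩⟩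
    · push_cast
      simp
      linarith
    · push_cast
      simp
      linarith
  · refine ⟨1, Int.floor_eq_iff.2 ⟨?_, ?_⟩⟩
    · push_cast
      simp
      linarith
    · push_cast
      simp
      linarith

/-- `⌊2y⌋ = 2⌊y⌋ + b`, `b ∈ {0, 1}`, `y = x c / δ`. -/
theorem child {δ : ℝ} (hδ : 0 < δ) (x : E) : ∃ b : Fin 3 → Fin 2,
    (fun c => ⌊x c / (δ / 2)⌋) = fun c => 2 * ⌊x c / δ⌋ + (((b c : Fin 2) : ℕ) : ℤ) := by
  choose b hb using chl_floor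
  refine ⟨fun c => b (x c / δ), funext fun c => ?_⟩
  rw [← hb]
  congr 1
  have := hδ.ne'
  field_simp
-- END chl

-- BEGIN bdc
private theorem bdc_meas {f : E → ℝ≥0} (hm : Measurable f) (h1 : ∫⁻ x, (f x : ℝ≥0∞) = 1) {u : E}
    (hu : ‖u‖ = 1) (D : ℝ) : Measurable fun x : E => ENNReal.ofReal (ms u f x D) := by
  have e : (fun x : E => ENNReal.ofReal (ms u f x D)) =
      fun x => ∫⁻ w in {w : E | dl u w < D}, (f (x - w) : ℝ≥0∞) := funext fun x => ms_eq hm h1 hu x D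
  rw [e]
  exact Measurable.lintegral_prod_right' (f := fun p : E × E => ((f (p.1 - p.2) : ℝ≥0) : ℝ≥0∞))
    ((hm.comp (measurable_fst.sub measurable_snd)).coe_nnreal_ennreal)

private theorem bdc_box {δ : ℝ} (hδ : 0 < δ) (k : Fin 3 → ℤ) :
    MeasurableSet {x : E | ∀ c, (k c : ℝ) * δ < x c ∧ x c < ((k c : ℝ) + 1) * δ} ∧
    volume {x : E | ∀ c, (k c : ℝ) * δ < x c ∧ x c < ((k c : ℝ) + 1) * δ} = ENNReal.ofReal (δ ^ 3) := by
  have hpre : {x : E | ∀ c, (k c : ℝ) * δ < x c ∧ x c < ((k c : ℝ) + 1) * δ} =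
      (@WithLp.ofLp 2 (Fin 3 → ℝ)) ⁻¹'
        (Set.pi univ fun c => Ioo ((k c : ℝ) * δ) (((k c : ℝ) + 1) * δ)) := by
    ext x
    simp only [mem_ofPred_eq, mem_preimage, Set.mem_pi, mem_univ, true_implies, mem_Ioo]
  have hmp := PiLp.volume_preserving_ofLp (Fin 3)
  have hms : MeasurableSet (Set.pi univ fun c : Fin 3 => Ioo ((k c : ℝ) * δ) (((k c : ℝ) + 1) * δ)) :=
    MeasurableSet.univ_pi fun _ => measurableSet_Ioo
  rw [hpre]
  refine ⟨hmp.measurable hms, ?_⟩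
  rw [hmp.measure_preimage hms.nullMeasurableSet, Real.volume_pi_Ioo]
  have e : ∀ c : Fin 3, ENNReal.ofReal (((k c : ℝ) + 1) * δ - (k c : ℝ) * δ) = ENNReal.ofReal δ := by
    intro c
    congr 1
    ring
  rw [Finset.prod_congr rfl fun c _ => e c, Finset.prod_const, Finset.card_univ, Fintype.card_fin,
    ENNReal.ofReal_pow hδ.le]

private theorem bdc_norm {x : E} {a : ℝ} (h : ∀ c, |x c| ≤ a) (ha : 0 ≤ a) : ‖x‖ ≤ 7 / 4 * a := by
  rw [EuclideanSpace.norm_eq, Real.sqrt_le_left (by positivity)]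
  simp only [Real.norm_eq_abs, sq_abs, Fin.sum_univ_three]
  have h0 : ∀ c, x c ^ 2 ≤ a ^ 2 := fun c => by
    rw [← sq_abs (x c)]
    exact pow_le_pow_left₀ (abs_nonneg _) (h c) 2
  have := h0 0
  have := h0 1
  have := h0 2
  nlinarith

/-- For a bad `k` and `x` in the open cell `{x | ∀ c, k c δ < x c < (k c + 1) δ}` (volume `δ³`, contained in `closedBall 0 4`, distance from the centre `< δ`): `∑ ms (u i) (f i) x (42 δ) ≥ 18` (row msm). The cells are disjoint: `18 δ³ #bad ≤ ∫ over closedBall 0 4 of ∑ ofReal (ms .. x (42 δ)) ≤ n 8 π (42 δ)²` (row mtb), and `8 π 42² / 18 ≤ 2500`. -/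
theorem card_bad {n : ℕ} {f : Fin n → E → ℝ≥0} (hm : ∀ i, Measurable (f i))
    (h1 : ∀ i, ∫⁻ x, (f i x : ℝ≥0∞) = 1) {u : Fin n → E} (hu : ∀ i, ‖u i‖ = 1) {δ : ℝ} (hδ : 0 < δ)
    (hδ1 : δ ≤ 1 / 40) : ((bad u f δ).card : ℝ) ≤ 2500 * n / δ := by
  classical
  set U : (Fin 3 → ℤ) → Set E := fun k => {x : E | ∀ c, (k c : ℝ) * δ < x c ∧ x c < ((k c : ℝ) + 1) * δ}
    with hU
  set S : E → ℝ≥0∞ := fun x => ∑ i, ENNReal.ofReal (ms (u i) (f i) x (42 * δ)) with hS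
  have hmeas : ∀ i, Measurable fun x => ENNReal.ofReal (ms (u i) (f i) x (42 * δ)) :=
    fun i => bdc_meas (hm i) (h1 i) (hu i) _
  have hup : ∫⁻ x in Metric.closedBall (0 : E) 4, S x ≤
      ENNReal.ofReal ((n : ℝ) * (8 * Real.pi * (42 * δ) ^ 2)) := by
    rw [hS, lintegral_finsetSum _ (fun i _ => hmeas i)]
    refine (Finset.sum_le_sum fun i _ => ms_integral (hm i) (h1 i) (hu i) (by positivity)).trans ?_
    rw [Finset.sum_const, Finset.card_univ, Fintype.card_fin, nsmul_eq_mul,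
      ENNReal.ofReal_mul (Nat.cast_nonneg _), ENNReal.ofReal_natCast]
  have hpt : ∀ k ∈ bad u f δ, ∀ x ∈ U k, ENNReal.ofReal 18 ≤ S x := by
    intro k hk x hx
    have hb : 18 < ∑ i, ms (u i) (f i) (ctr δ k) (41 * δ) := (Finset.mem_filter.mp hk).2
    have hd : ‖ctr δ k - x‖ ≤ δ := by
      have h2 : ∀ c, |(ctr δ k - x) c| ≤ δ / 2 := by
        intro c
        have h3 := hx c
        have h4 : (ctr δ k - x) c = ((k c : ℝ) + 1 / 2) * δ - x c := rfl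
        rw [h4, abs_le]
        constructor <;> nlinarith [h3.1, h3.2]
      have := bdc_norm h2 (by positivity)
      linarith
    have hle : ∑ i, ms (u i) (f i) (ctr δ k) (41 * δ) ≤ ∑ i, ms (u i) (f i) x (42 * δ) := by
      refine Finset.sum_le_sum fun i _ => ?_
      exact (ms_basic (h1 i) (hu i) (ctr δ k) (41 * δ)).2.2 x (42 * δ) (by linarith)
    have e : S x = ENNReal.ofReal (∑ i, ms (u i) (f i) x (42 * δ)) := by
      rw [ENNReal.ofReal_sum_of_nonneg]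
      intro i _
      exact (ms_basic (h1 i) (hu i) x (42 * δ)).1
    rw [e]
    exact ENNReal.ofReal_le_ofReal (by linarith)
  have hsub : (⋃ k ∈ bad u f δ, U k) ⊆ Metric.closedBall (0 : E) 4 := by
    intro x hx
    simp only [mem_iUnion] at hx
    obtain ⟨k, hk, hxk⟩ := hx
    have hkr : k ∈ rng δ := (Finset.mem_filter.mp hk).1
    have hk2 := Fintype.mem_piFinset.mp hkr
    rw [mem_closedBall_zero_iff]
    have hfl : (⌊2 / δ⌋ : ℝ) * δ ≤ 2 := by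
      have h5 : (⌊2 / δ⌋ : ℝ) ≤ 2 / δ := Int.floor_le _
      calc (⌊2 / δ⌋ : ℝ) * δ ≤ 2 / δ * δ := mul_le_mul_of_nonneg_right h5 hδ.le
        _ = 2 := by field_simp
    have h2 : ∀ c, |x c| ≤ 2 + 1 / 40 := by
      intro c
      have h3 := hxk c
      obtain ⟨h4, h5⟩ := Finset.mem_Icc.mp (hk2 c)
      have h6 : -(⌊2 / δ⌋ : ℝ) ≤ (k c : ℝ) := by exact_mod_cast h4
      have h7 : (k c : ℝ) ≤ (⌊2 / δ⌋ : ℝ) := by exact_mod_cast h5
      have h8 : -(⌊2 / δ⌋ : ℝ) * δ ≤ (k c : ℝ) * δ := mul_le_mul_of_nonneg_right h6 hδ.le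
      have h9 : (k c : ℝ) * δ ≤ (⌊2 / δ⌋ : ℝ) * δ := mul_le_mul_of_nonneg_right h7 hδ.le
      rw [abs_le]
      constructor <;> nlinarith [h3.1, h3.2]
    have := bdc_norm h2 (by norm_num)
    linarith
  have hdisj : Set.PairwiseDisjoint (↑(bad u f δ)) U := by
    intro k _ k' _ hne
    rw [Function.onFun, Set.disjoint_left]
    intro x hx hx'
    apply hne
    funext c
    have a1 := hx c
    have a2 := hx' c
    have b1 : (k c : ℝ) < (k' c : ℝ) + 1 := by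
      by_contra hcon
      push Not at hcon
      nlinarith [a1.1, a2.2]
    have b2 : (k' c : ℝ) < (k c : ℝ) + 1 := by
      by_contra hcon
      push Not at hcon
      nlinarith [a2.1, a1.2]
    have c1 : k c < k' c + 1 := by exact_mod_cast b1
    have c2 : k' c < k c + 1 := by exact_mod_cast b2
    omega
  have hlow : ENNReal.ofReal (((bad u f δ).card : ℝ) * (18 * δ ^ 3)) ≤
      ∫⁻ x in Metric.closedBall (0 : E) 4, S x := by
    calc ENNReal.ofReal (((bad u f δ).card : ℝ) * (18 * δ ^ 3))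
        = ∑ k ∈ bad u f δ, ENNReal.ofReal (18 * δ ^ 3) := by
          rw [Finset.sum_const, nsmul_eq_mul, ENNReal.ofReal_mul (Nat.cast_nonneg _),
            ENNReal.ofReal_natCast]
      _ ≤ ∑ k ∈ bad u f δ, ∫⁻ x in U k, S x := by
          refine Finset.sum_le_sum fun k hk => ?_
          have h2 : ENNReal.ofReal (18 * δ ^ 3) = ∫⁻ _ in U k, ENNReal.ofReal 18 := by
            rw [setLIntegral_const, (bdc_box hδ k).2, ← ENNReal.ofReal_mul (by norm_num)]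
          rw [h2]
          exact setLIntegral_mono' (bdc_box hδ k).1 (hpt k hk)
      _ = ∫⁻ x in ⋃ k ∈ bad u f δ, U k, S x :=
          (lintegral_biUnion_finset hdisj (fun k _ => (bdc_box hδ k).1) S).symm
      _ ≤ ∫⁻ x in Metric.closedBall (0 : E) 4, S x := lintegral_mono_set hsub
  have hfin := hlow.trans hup
  rw [ENNReal.ofReal_le_ofReal_iff (by positivity)] at hfin
  rw [le_div_iff₀ hδ]
  have hpi := Real.pi_lt_d4
  have hn : (0 : ℝ) ≤ n := Nat.cast_nonneg n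
  have h2 : ((bad u f δ).card : ℝ) * δ * (18 * δ ^ 2) ≤ (n : ℝ) * (8 * Real.pi * 98) * (18 * δ ^ 2) := by
    nlinarith
  have h3 : ((bad u f δ).card : ℝ) * δ ≤ (n : ℝ) * (8 * Real.pi * 98) :=
    le_of_mul_le_mul_right h2 (by positivity)
  nlinarith
-- END bdc

-- BEGIN lst
/-- The least `M` with `n ≤ 4^M`: `M = 0` or `4^(M-1) < n`, so `2^M ≤ 2 √n`. -/
theorem exists_last {n : ℕ} (hn : 0 < n) : ∃ M : ℕ, (n : ℝ) ≤ 4 ^ M ∧ (2 : ℝ) ^ M ≤ 2 * Real.sqrt n := by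
  classical
  have hex : ∃ M : ℕ, n ≤ 4 ^ M := ⟨n, (Nat.lt_pow_self (by norm_num)).le⟩
  have hn1 : (1 : ℝ) ≤ n := by exact_mod_cast hn
  have hs : 1 ≤ Real.sqrt n := by
    rw [Real.one_le_sqrt]
    exact hn1
  refine ⟨Nat.find hex, by exact_mod_cast Nat.find_spec hex, ?_⟩
  rcases Nat.eq_zero_or_pos (Nat.find hex) with h0 | h0
  · rw [h0, pow_zero]
    linarith
  · have h1 : ¬ n ≤ 4 ^ (Nat.find hex - 1) := Nat.find_min hex (by omega)
    have h2 : (4 : ℝ) ^ (Nat.find hex - 1) ≤ n := by exact_mod_cast (not_le.1 h1).le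
    have h3 : (2 : ℝ) ^ (Nat.find hex - 1) ≤ Real.sqrt n := by
      apply Real.le_sqrt_of_sq_le
      calc ((2 : ℝ) ^ (Nat.find hex - 1)) ^ 2 = 4 ^ (Nat.find hex - 1) := by
            rw [← pow_mul, mul_comm, pow_mul]
            norm_num
        _ ≤ n := h2
    calc (2 : ℝ) ^ Nat.find hex = 2 * 2 ^ (Nat.find hex - 1) := by
          conv_lhs => rw [show Nat.find hex = (Nat.find hex - 1) + 1 by omega]
          rw [pow_succ, mul_comm]
      _ ≤ 2 * Real.sqrt n := by linarith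
-- END lst

-- BEGIN cov
/-- the number of the cells -/
private theorem cov_num {n M : ℕ} {l : ℝ} (hn : 0 < n) (hl : 1 ≤ l) (hM2 : (2 : ℝ) ^ M ≤ 2 * Real.sqrt n)
    {a : ℝ} (ha : a ≤ (200 * l) ^ 3) (b : ℕ → ℝ) (hb : ∀ m, b m ≤ 8 * (2500 * n * (40 * l * 2 ^ m))) :
    a + ∑ m ∈ Finset.range M, b m ≤ 100000000 * (l * n ^ (3 / 2 : ℝ) + l ^ 3) := by
  have hnr : (0 : ℝ) < n := by exact_mod_cast hn
  have h1 : ∑ m ∈ Finset.range M, b m ≤ 800000 * n * l * ∑ m ∈ Finset.range M, (2 : ℝ) ^ m := by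
    rw [Finset.mul_sum]
    refine Finset.sum_le_sum fun m _ => (hb m).trans (le_of_eq ?_)
    ring
  have h2 : ∑ m ∈ Finset.range M, (2 : ℝ) ^ m ≤ 2 ^ M := by
    rw [geom_sum_eq (by norm_num)]
    have : (0 : ℝ) < 2 ^ M := by positivity
    norm_num
  have h3 : (n : ℝ) * Real.sqrt n = n ^ (3 / 2 : ℝ) := by
    rw [Real.sqrt_eq_rpow]
    nth_rewrite 1 [← Real.rpow_one (n : ℝ)]
    rw [← Real.rpow_add hnr]
    norm_num
  have h4 : (0 : ℝ) ≤ 800000 * n * l := by positivity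
  have h5 : 800000 * n * l * ∑ m ∈ Finset.range M, (2 : ℝ) ^ m ≤
      800000 * n * l * (2 * Real.sqrt n) := mul_le_mul_of_nonneg_left (h2.trans hM2) h4
  have h6 : 800000 * n * l * (2 * Real.sqrt n) = 1600000 * (l * n ^ (3 / 2 : ℝ)) := by
    rw [← h3]
    ring
  have h7 : 0 ≤ l * (n : ℝ) ^ (3 / 2 : ℝ) := by positivity
  have h8 : 0 ≤ l ^ 3 := by positivity
  have h9 : (200 * l) ^ 3 = 8000000 * l ^ 3 := by ring
  rw [h9] at ha
  linarith

/-- `δ_m = 1/(40 l 2^m)`, `M` from row lst. At level `M` no cell is bad: `∑ ms ≤ n 3 l² (41 δ_M)² = 3 (41/40)² n / 4^M ≤ 18` (row mss). `T` = the cells of level 0 in `rng δ_0` which are not bad, and for `m < M` the cells `2k + b` of level `m+1`, `k ∈ bad δ_m`, which satisfy the inequality (pairs `(δ, ctr δ k)`). For `x` take the least level whose cell `⌊x c / δ_m⌋` satisfies the inequality (rows cel, chl: its parent is bad). Number: `(200 l)³ + ∑_{m<M} 8 · 2500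 n / δ_m ≤ (200 l)³ + 20000 n · 40 l 2^M` (rows rct, bdc). -/
theorem cover {n : ℕ} (hn : 0 < n) {l : ℝ} (hl : 1 ≤ l) {f : Fin n → E → ℝ≥0}
    (hm : ∀ i, Measurable (f i)) (h1 : ∀ i, ∫⁻ x, (f i x : ℝ≥0∞) = 1) (hL : ∀ i, LL l (f i))
    {u : Fin n → E} (hu : ∀ i, ‖u i‖ = 1) : ∃ T : Finset (ℝ × E),
      (∀ q ∈ T, 0 < q.1 ∧ l * q.1 ≤ 1 / 40 ∧ ∑ i, ms (u i) (f i) q.2 (41 * q.1) ≤ 18) ∧
      (∀ x : E, ‖x‖ ≤ 1 → ∃ q ∈ T, ∀ c, |x c - q.2 c| ≤ q.1 / 2) ∧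
      (T.card : ℝ) ≤ 100000000 * (l * n ^ (3 / 2 : ℝ) + l ^ 3) := by
  classical
  have hl0 : 0 < l := lt_of_lt_of_le one_pos hl
  have hnr : (0 : ℝ) < n := by exact_mod_cast hn
  obtain ⟨M, hM4, hM2⟩ := exists_last hn
  obtain ⟨δ, hδ⟩ : ∃ δ : ℕ → ℝ, ∀ m, δ m = 1 / (40 * l * 2 ^ m) := ⟨_, fun _ => rfl⟩
  have hδ0 : ∀ m, 0 < δ m := fun m => by rw [hδ]; positivity
  have h2m : ∀ m : ℕ, (1 : ℝ) ≤ 2 ^ m := fun m => one_le_pow₀ (by norm_num)
  have hδl : ∀ m, l * δ m ≤ 1 / 40 := by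
    intro m
    have e : l * δ m = 1 / (40 * 2 ^ m) := by
      rw [hδ]
      field_simp
    rw [e]
    exact one_div_le_one_div_of_le (by norm_num) (by linarith [h2m m])
  have hδ1 : ∀ m, δ m ≤ 1 / 40 := by
    intro m
    have := mul_le_mul_of_nonneg_right hl (hδ0 m).le
    linarith [hδl m]
  have hδs : ∀ m, δ (m + 1) = δ m / 2 := by
    intro m
    rw [hδ, hδ, pow_succ]
    field_simp
  obtain ⟨P, hP⟩ : ∃ P : ℕ → (Fin 3 → ℤ) → Prop, ∀ m k, P m k ↔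
      ∑ i, ms (u i) (f i) (ctr (δ m) k) (41 * δ m) ≤ 18 := ⟨_, fun _ _ => Iff.rfl⟩
  have hlast : ∀ k, P M k := by
    intro k
    rw [hP]
    have hs : ∀ i, ms (u i) (f i) (ctr (δ M) k) (41 * δ M) ≤ 3 * l ^ 2 * (41 * δ M) ^ 2 := fun i =>
      ms_small hl0 (hm i) (h1 i) (hL i) (hu i) _ (by have := hδ0 M; positivity)
    refine (Finset.sum_le_sum fun i _ => hs i).trans ?_
    rw [Finset.sum_const, Finset.card_univ, Fintype.card_fin, nsmul_eq_mul]
    have e : (n : ℝ) * (3 * l ^ 2 * (41 * δ M) ^ 2) = 5043 / 1600 * (n / 4 ^ M) := by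
      have h4 : (4 : ℝ) ^ M = 2 ^ M * 2 ^ M := by
        rw [← mul_pow]
        norm_num
      rw [hδ, h4]
      field_simp
      norm_num
    rw [e]
    have h5 : (n : ℝ) / 4 ^ M ≤ 1 := by
      rw [div_le_one (by positivity)]
      exact hM4
    linarith
  obtain ⟨T0, hT0⟩ : ∃ T0 : Finset (ℝ × E), T0 =
      ((rng (δ 0)).filter fun k => P 0 k).image fun k => (δ 0, ctr (δ 0) k) := ⟨_, rfl⟩
  obtain ⟨T1, hT1⟩ : ∃ T1 : ℕ → Finset (ℝ × E), ∀ m, T1 m =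
      ((((bad u f (δ m)) ×ˢ (Finset.univ : Finset (Fin 3 → Fin 2))).image
        fun r : (Fin 3 → ℤ) × (Fin 3 → Fin 2) => fun c : Fin 3 =>
          2 * r.1 c + (((r.2 c : Fin 2) : ℕ) : ℤ)).filter fun k => P (m + 1) k).image
        fun k => (δ (m + 1), ctr (δ (m + 1)) k) := ⟨_, fun _ => rfl⟩
  refine ⟨T0 ∪ (Finset.range M).biUnion T1, ?_, ?_, ?_⟩
  · intro q hq
    have key : ∃ m k, q = (δ m, ctr (δ m) k) ∧ P m k := by
      rcases Finset.mem_union.1 hq with h | h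
      · rw [hT0, Finset.mem_image] at h
        obtain ⟨k, hk, rfl⟩ := h
        exact ⟨0, k, rfl, (Finset.mem_filter.1 hk).2⟩
      · obtain ⟨m, _, hmq⟩ := Finset.mem_biUnion.1 h
        rw [hT1, Finset.mem_image] at hmq
        obtain ⟨k, hk, rfl⟩ := hmq
        exact ⟨m + 1, k, rfl, (Finset.mem_filter.1 hk).2⟩
    obtain ⟨m, k, rfl, hk⟩ := key
    exact ⟨hδ0 m, hδl m, (hP m k).1 hk⟩
  · intro x hx
    have hex : ∃ m, P m (fun c => ⌊x c / δ m⌋) := ⟨M, hlast _⟩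
    have hmin := Nat.find_spec hex
    have hleM : Nat.find hex ≤ M := Nat.find_min' hex (hlast _)
    rcases Nat.eq_zero_or_pos (Nat.find hex) with h0 | hpos
    · rw [h0] at hmin
      obtain ⟨hr, hc⟩ := cell_of (hδ0 0) (le_trans (hδ1 0) (by norm_num)) hx
      refine ⟨(δ 0, ctr (δ 0) fun c => ⌊x c / δ 0⌋), Finset.mem_union_left _ ?_, hc⟩
      rw [hT0]
      exact Finset.mem_image_of_mem _ (Finset.mem_filter.2 ⟨hr, hmin⟩)
    · obtain ⟨m, hmm⟩ : ∃ m, Nat.find hex = m + 1 := ⟨Nat.find hex - 1, by omega⟩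
      rw [hmm] at hmin hleM
      have hnot : ¬ P m (fun c => ⌊x c / δ m⌋) := Nat.find_min hex (by omega)
      obtain ⟨hr, _⟩ := cell_of (hδ0 m) (le_trans (hδ1 m) (by norm_num)) hx
      obtain ⟨_, hc⟩ := cell_of (hδ0 (m + 1)) (le_trans (hδ1 (m + 1)) (by norm_num)) hx
      obtain ⟨b, hb0⟩ := child (hδ0 m) x
      have hb : (fun c => ⌊x c / δ (m + 1)⌋) =
          fun c => 2 * ⌊x c / δ m⌋ + (((b c : Fin 2) : ℕ) : ℤ) := by
        simp only [hδs m]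
        exact hb0
      refine ⟨(δ (m + 1), ctr (δ (m + 1)) fun c => ⌊x c / δ (m + 1)⌋),
        Finset.mem_union_right _ (Finset.mem_biUnion.2 ⟨m, Finset.mem_range.2 (by omega), ?_⟩), hc⟩
      rw [hT1]
      refine Finset.mem_image_of_mem _ (Finset.mem_filter.2 ⟨?_, hmin⟩)
      rw [Finset.mem_image]
      refine ⟨(fun c => ⌊x c / δ m⌋, b), Finset.mem_product.2 ⟨?_, Finset.mem_univ _⟩, ?_⟩
      · unfold bad
        refine Finset.mem_filter.2 ⟨hr, ?_⟩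
        have : ¬ ∑ i, ms (u i) (f i) (ctr (δ m) fun c => ⌊x c / δ m⌋) (41 * δ m) ≤ 18 :=
          fun h => hnot ((hP _ _).2 h)
        exact not_le.1 this
      · exact hb.symm
  · have hc0 : (T0.card : ℝ) ≤ (200 * l) ^ 3 := by
      have ha : T0.card ≤ (rng (δ 0)).card := by
        rw [hT0]
        exact Finset.card_image_le.trans (Finset.card_filter_le _ _)
      have hb : ((rng (δ 0)).card : ℝ) ≤ (5 / δ 0) ^ 3 :=
        card_rng (hδ0 0) (le_trans (hδ1 0) (by norm_num))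
      have hc : 5 / δ 0 = 200 * l := by
        rw [hδ]
        field_simp
        norm_num
      rw [hc] at hb
      exact le_trans (by exact_mod_cast ha) hb
    have hc1 : ∀ m, ((T1 m).card : ℝ) ≤ 8 * (2500 * n * (40 * l * 2 ^ m)) := by
      intro m
      have ha : (T1 m).card ≤ (bad u f (δ m)).card * 8 := by
        rw [hT1]
        refine Finset.card_image_le.trans ((Finset.card_filter_le _ _).trans
          (Finset.card_image_le.trans ?_))
        rw [Finset.card_product, Finset.card_univ]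
        simp
      have hb := card_bad hm h1 hu (hδ0 m) (hδ1 m)
      have hc : 2500 * (n : ℝ) / δ m = 2500 * n * (40 * l * 2 ^ m) := by
        rw [hδ, div_div_eq_mul_div, div_one]
      rw [hc] at hb
      have hd : ((T1 m).card : ℝ) ≤ ((bad u f (δ m)).card : ℝ) * 8 := by exact_mod_cast ha
      linarith
    have hu1 : ((T0 ∪ (Finset.range M).biUnion T1).card : ℝ) ≤
        (T0.card : ℝ) + ∑ m ∈ Finset.range M, ((T1 m).card : ℝ) := by
      have ha : (T0 ∪ (Finset.range M).biUnion T1).card ≤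
          T0.card + ∑ m ∈ Finset.range M, (T1 m).card :=
        (Finset.card_union_le _ _).trans (Nat.add_le_add_left Finset.card_biUnion_le _)
      exact_mod_cast ha
    exact hu1.trans (cov_num hn hl hM2 hc0 _ hc1)
-- END cov

end Pool.Agent.Vsn
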