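import Pool.Agent.Vsn.Tube

/-!
Good cells: the expected number of faces which meet the cell is bounded
-/

set_option autoImplicit false

namespace Pool.Agent.Vsn

open MeasureTheory Set
open scoped ENNReal NNReal
open Pool.Agent.Vor (E dl line wt Near Faces)

-- BEGIN pg2
/-- Word for word as `Vws.per_point_gen` (Vws/Gen, row ppg) with `18 / n` replaced by `t i`: `A (j+1) - A j ≤ A (j+1)/12 + ∑ t i`. -/
theorem per_point2 {n : ℕ} (μ : Fin n → Measure E) [∀ i, IsProbabilityMeasure (μ i)]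
    (D : Fin n → E → ℝ) (hD : ∀ i, Measurable (D i)) (h0 : ∀ i x, 0 ≤ D i x) {δ : ℝ} (hδ : 0 < δ)
    (t : Fin n → ℝ) (ht : ∑ i, t i ≤ 18)
    (h : ∀ i (j : ℕ), (μ i).real {x | D i x < ((j + 1 : ℕ) : ℝ) * δ} -
      (μ i).real {x | D i x < (j : ℝ) * δ} ≤
      (μ i).real {x | D i x < ((j + 1 : ℕ) : ℝ) * δ} / 12 + t i) :
    ∑' j : ℕ, ∑ i0, ∏ i, ∫⁻ x, wt δ j (i = i0) (D i x) ∂(μ i) ≤ ENNReal.ofReal (4 * Real.exp 79) := by
  set F : Fin n → ℕ → ℝ := fun i j => (μ i).real {x | D i x < (j : ℝ) * δ} with hF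
  set A : ℕ → ℝ := fun j => ∑ i, F i j with hA
  have hsub : ∀ i (a b : ℕ), a ≤ b → {x | D i x < (a : ℝ) * δ} ⊆ {x | D i x < (b : ℝ) * δ} := by
    intro i a b hab x hx
    have hx' : D i x < (a : ℝ) * δ := hx
    have hab' : (a : ℝ) ≤ b := by exact_mod_cast hab
    exact hx'.trans_le (mul_le_mul_of_nonneg_right hab' hδ.le)
  have hF0 : ∀ i j, 0 ≤ F i j := fun i j => measureReal_nonneg
  have hF1 : ∀ i j, F i j ≤ 1 := fun i j => measureReal_le_one
  have hFm : ∀ i, Monotone (F i) := fun i a b hab => measureReal_mono (hsub i a b hab)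
  have hFz : ∀ i, F i 0 = 0 := by
    intro i
    have e : {x | D i x < ((0 : ℕ) : ℝ) * δ} = ∅ := by
      refine Set.eq_empty_of_forall_notMem fun x hx => ?_
      have hx' : D i x < ((0 : ℕ) : ℝ) * δ := hx
      rw [Nat.cast_zero, zero_mul] at hx'
      exact absurd hx' (not_lt.2 (h0 i x))
    show (μ i).real {x | D i x < ((0 : ℕ) : ℝ) * δ} = 0
    rw [e, measureReal_empty]
  have hAm : Monotone A := fun a b hab => Finset.sum_le_sum fun i _ => hFm i hab
  have hA0 : A 0 = 0 := Finset.sum_eq_zero fun i _ => hFz i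
  have hAd : ∀ j, A (j + 1) - A j = ∑ i, (F i (j + 1) - F i j) := fun j =>
    Finset.sum_sub_distrib .. |>.symm
  have hAs : ∀ j, A (j + 1) - A j ≤ A (j + 1) / 12 + 18 := by
    intro j
    rw [hAd]
    refine (Finset.sum_le_sum fun i _ => h i j).trans ?_
    rw [Finset.sum_add_distrib, ← Finset.sum_div]
    exact add_le_add le_rfl ht
  have hring : ∀ i (j : ℕ), (μ i) {x | (j : ℝ) * δ ≤ D i x ∧ D i x < ((j : ℝ) + 1) * δ} =
      ENNReal.ofReal (F i (j + 1) - F i j) := by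
    intro i j
    have m1 : MeasurableSet {x | D i x < (j : ℝ) * δ} := measurableSet_lt (hD i) measurable_const
    have e : {x | (j : ℝ) * δ ≤ D i x ∧ D i x < ((j : ℝ) + 1) * δ} =
        {x | D i x < ((j + 1 : ℕ) : ℝ) * δ} \ {x | D i x < (j : ℝ) * δ} := by
      ext x
      constructor
      · rintro ⟨h1, h2⟩
        refine ⟨?_, fun h3 => absurd h3 (not_lt.2 h1)⟩
        show D i x < ((j + 1 : ℕ) : ℝ) * δ
        rw [Nat.cast_add, Nat.cast_one]
        exact h2
      · rintro ⟨h1, h2⟩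
        have h1' : D i x < ((j + 1 : ℕ) : ℝ) * δ := h1
        rw [Nat.cast_add, Nat.cast_one] at h1'
        exact ⟨not_lt.1 h2, h1'⟩
    rw [e, measure_sdiff (hsub i j (j + 1) (Nat.le_succ j)) m1.nullMeasurableSet (measure_ne_top _ _),
      ENNReal.ofReal_sub _ (hF0 i j)]
    show _ = ENNReal.ofReal ((μ i).real _) - ENNReal.ofReal ((μ i).real _)
    rw [ofReal_measureReal, ofReal_measureReal]
  have hd0 : ∀ i j, 0 ≤ F i (j + 1) - F i j := fun i j => sub_nonneg.2 (hFm i (Nat.le_succ j))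
  have term : ∀ j i0, ∏ i, ∫⁻ x, wt δ j (i = i0) (D i x) ∂(μ i) ≤
      ENNReal.ofReal (2 * (F i0 (j + 1) - F i0 j) *
        (Real.exp 1 * Real.exp (-A j + (A (j + 3) - A j)))) := by
    intro j i0
    rw [← Finset.mul_prod_erase Finset.univ _ (Finset.mem_univ i0)]
    have e1 : ∫⁻ x, wt δ j (i0 = i0) (D i0 x) ∂(μ i0) =
        ENNReal.ofReal (2 * (F i0 (j + 1) - F i0 j)) := by
      rw [Vws.wt_star_gen (hD i0) δ j (i0 = i0) rfl, hring, ENNReal.ofReal_mul (by norm_num)]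
      norm_num
    have e2 : ∀ i ∈ Finset.univ.erase i0, ∫⁻ x, wt δ j (i = i0) (D i x) ∂(μ i) =
        ENNReal.ofReal (1 - F i j + (F i (j + 3) - F i j)) := by
      intro i hi
      exact Vws.wt_other_gen (hD i) hδ j (i = i0) (Finset.ne_of_mem_erase hi)
    rw [Finset.prod_congr rfl e2, e1, ← ENNReal.ofReal_prod_of_nonneg,
      ← ENNReal.ofReal_mul (by have := hd0 i0 j; positivity)]
    · apply ENNReal.ofReal_le_ofReal
      apply mul_le_mul_of_nonneg_left _ (by have := hd0 i0 j; positivity)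
      exact Vor.prod_exp (fun i => F i j) (fun i => F i (j + 3)) (fun i => hF0 i j)
        (fun i => hFm i (by omega)) (fun i => hF1 i (j + 3)) i0
    · intro i _
      have a1 := hF1 i j
      have a2 := hFm i (show j ≤ j + 3 by omega)
      linarith
  have row : ∀ j, ∑ i0, ∏ i, ∫⁻ x, wt δ j (i = i0) (D i x) ∂(μ i) ≤
      ENNReal.ofReal (2 * Real.exp 1 *
        ((A (j + 1) - A j) * Real.exp (-A j + (A (j + 3) - A j)))) := by
    intro j
    refine (Finset.sum_le_sum fun i0 _ => term j i0).trans ?_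
    rw [← ENNReal.ofReal_sum_of_nonneg]
    · apply ENNReal.ofReal_le_ofReal
      apply le_of_eq
      rw [hAd, ← Finset.sum_mul, ← Finset.mul_sum]
      ring
    · intro i0 _
      have := hd0 i0 j
      positivity
  apply ENNReal.tsum_le_of_sum_range_le
  intro J
  refine (Finset.sum_le_sum fun j _ => row j).trans ?_
  rw [← ENNReal.ofReal_sum_of_nonneg]
  · apply ENNReal.ofReal_le_ofReal
    rw [← Finset.mul_sum]
    have t := Vws.tele2 hA0 hAm hAs J
    have e : (4 : ℝ) * Real.exp 79 = 2 * Real.exp 1 * (2 * Real.exp 78) := by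
      have : Real.exp 79 = Real.exp 1 * Real.exp 78 := by rw [← Real.exp_add]; norm_num
      rw [this]; ring
    rw [e]
    exact mul_le_mul_of_nonneg_left t (by positivity)
  · intro j _
    have : 0 ≤ A (j + 1) - A j := sub_nonneg.2 (hAm (by omega))
    positivity
-- END pg2

-- BEGIN rgc
/-- `j ≥ 40`: row msg with `D = j δ`, `t = (j+1)/j ≤ 41/40`, factor `≤ (41/40)² exp (l δ) ≤ (41/40)² (40/39) ≤ 12/11`. `j < 40`: `ms ((j+1) δ) ≤ ms (41 δ)`, `ms (j δ) ≥ 0` (row msm). -/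
theorem ring_cond {l : ℝ} (hl : 0 < l) {f : E → ℝ≥0} (hm : Measurable f)
    (h1 : ∫⁻ x, (f x : ℝ≥0∞) = 1) (hL : LL l f) {u : E} (hu : ‖u‖ = 1) (g : E) {δ : ℝ} (hδ : 0 < δ)
    (hlδ : l * δ ≤ 1 / 40) (j : ℕ) :
    ms u f g (((j + 1 : ℕ) : ℝ) * δ) - ms u f g ((j : ℝ) * δ) ≤
      ms u f g (((j + 1 : ℕ) : ℝ) * δ) / 12 + ms u f g (41 * δ) := by
  have hb : ∀ D : ℝ, 0 ≤ ms u f g D := fun D => (ms_basic h1 hu g D).1
  by_cases hj : 40 ≤ j
  · have hj0 : (40 : ℝ) ≤ j := by exact_mod_cast hj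
    have hjp : (0 : ℝ) < j := by linarith
    have ht : (1 : ℝ) ≤ ((j + 1 : ℕ) : ℝ) / j := by
      rw [le_div_iff₀ hjp]
      push_cast
      linarith
    have h2 := ms_growth hl.le hm h1 hL hu g (D := (j : ℝ) * δ) (t := ((j + 1 : ℕ) : ℝ) / j)
      (mul_pos hjp hδ) ht
    have e1 : ((j + 1 : ℕ) : ℝ) / j * ((j : ℝ) * δ) = ((j + 1 : ℕ) : ℝ) * δ := by
      field_simp
    have e2 : (((j + 1 : ℕ) : ℝ) / j - 1) * ((j : ℝ) * δ) = δ := by
      push_cast
      field_simp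
      ring
    rw [e1, e2] at h2
    have h3 : ((j + 1 : ℕ) : ℝ) / j ≤ 41 / 40 := by
      rw [div_le_div_iff₀ hjp (by norm_num)]
      push_cast
      linarith
    have h4 : (((j + 1 : ℕ) : ℝ) / j) ^ 2 ≤ (41 / 40) ^ 2 :=
      pow_le_pow_left₀ (by linarith) h3 2
    have h5 : Real.exp (l * δ) ≤ 40 / 39 := by
      have h6 : 1 - l * δ ≤ Real.exp (-(l * δ)) := by
        have := Real.add_one_le_exp (-(l * δ))
        linarith
      have h7 : (39 : ℝ) / 40 ≤ Real.exp (-(l * δ)) := by linarith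
      have h8 : Real.exp (l * δ) * Real.exp (-(l * δ)) = 1 := by
        rw [← Real.exp_add, add_neg_cancel, Real.exp_zero]
      have h9 := Real.exp_pos (l * δ)
      nlinarith
    have h6 : (((j + 1 : ℕ) : ℝ) / j) ^ 2 * Real.exp (l * δ) ≤ 12 / 11 := by
      calc (((j + 1 : ℕ) : ℝ) / j) ^ 2 * Real.exp (l * δ) ≤ (41 / 40) ^ 2 * (40 / 39) :=
            mul_le_mul h4 h5 (Real.exp_pos _).le (by norm_num)
        _ ≤ 12 / 11 := by norm_num
    have h7 : ms u f g (((j + 1 : ℕ) : ℝ) * δ) ≤ 12 / 11 * ms u f g ((j : ℝ) * δ) :=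
      h2.trans (mul_le_mul_of_nonneg_right h6 (hb _))
    have h8 := hb (41 * δ)
    linarith
  · have hj1 : ((j + 1 : ℕ) : ℝ) ≤ 41 := by
      have : j + 1 ≤ 41 := by omega
      exact_mod_cast this
    have h2 : ms u f g (((j + 1 : ℕ) : ℝ) * δ) ≤ ms u f g (41 * δ) := by
      refine (ms_basic h1 hu g (((j + 1 : ℕ) : ℝ) * δ)).2.2 g (41 * δ) ?_
      rw [sub_self, norm_zero, add_zero]
      exact mul_le_mul_of_nonneg_right hj1 hδ.le
    have h3 := hb ((j : ℝ) * δ)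
    have h4 := hb (((j + 1 : ℕ) : ℝ) * δ)
    linarith
-- END rgc

-- BEGIN fcl
/-- The inner part of the proof of `Vor.faces_le` (Vor/Faces, row fle): `Vor.fle_box`, `Vor.faces_box`, `Vor.count_faces`. -/
theorem faces_cell {n : ℕ} (hn : 0 < n) {u : Fin n → E} (hu : ∀ i, ‖u i‖ = 1) (p : Fin n → E) {δ : ℝ}
    (hδ : 0 < δ) (g : E) :
    (({f | f ∈ Faces u p ∧ ∃ z ∈ f, ∀ c, |z c - g c| ≤ δ / 2}.encard : ℕ∞) : ℝ≥0∞) ≤
      10000000 * ∑' j : ℕ, ∑ i0, ∏ i, wt δ j (i = i0) (dl (u i) (g - p i)) := by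
  classical
  set B : Set (Set E) :=
    {f | f ∈ Faces u p ∧ ∃ z ∈ f, ∀ c, g c - 11 * δ / 20 < z c ∧ z c < g c + 11 * δ / 20} with hB
  have hsub : {f | f ∈ Faces u p ∧ ∃ z ∈ f, ∀ c, |z c - g c| ≤ δ / 2} ⊆ B := by
    rintro f ⟨hf, x, hxf, hx⟩
    refine ⟨hf, x, hxf, fun c => ?_⟩
    have := abs_le.1 (hx c)
    constructor <;> linarith [this.1, this.2]
  refine (ENat.toENNReal_mono (Set.encard_le_encard hsub)).trans ?_
  set S : Finset (Fin n) :=
    Finset.univ.filter (fun i => ∀ j, dl (u i) (g - p i) < dl (u j) (g - p j) + 2 * δ) with hS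
  have hL : ∀ z : E, (∀ c, g c - 11 * δ / 20 < z c ∧ z c < g c + 11 * δ / 20) → Near u p z ⊆ S := by
    intro z hz i hi
    have hn1 := Vor.fle_box hδ hz
    simp only [hS, Finset.coe_filter, Finset.mem_univ, true_and, mem_ofPred_eq]
    intro j
    have h : Metric.infDist z (line (p i) (u i)) ≤ Metric.infDist z (line (p j) (u j)) := hi j
    rw [Vor.infDist_line (hu i), Vor.infDist_line (hu j)] at h
    have a := (Vor.dl_basic (hu i)).2.2.2.2.2 (g - p i) (z - p i)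
    have b := (Vor.dl_basic (hu j)).2.2.2.2.2 (z - p j) (g - p j)
    have c : g - p i - (z - p i) = -(z - g) := by abel
    have d : z - p j - (g - p j) = z - g := by abel
    rw [c, norm_neg] at a
    rw [d] at b
    linarith
  have h1 := Vor.faces_box hu (fun c => g c - 11 * δ / 20) (fun c => g c + 11 * δ / 20) S hL
  have h2 := Vor.count_faces hn (fun i => dl (u i) (g - p i)) (fun i => (Vor.dl_basic (hu i)).2.1 _) hδ S
    (fun i => by simp [hS])
  refine (ENat.toENNReal_mono h1).trans ?_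
  rw [ENat.toENNReal_coe]
  exact h2
-- END fcl

-- BEGIN gex
/-- Measurability and expectation as in `Vor.main_faces` (row mn2: `Vor.wt_measurable`, `lintegral_tsum`, `Vor.lintegral_pi_prod`), then row pg2 with `D i x = dl (u i) (g - x)`, `t i = ms (u i) (f i) g (41 δ)` and row rgc. -/
theorem expect_cell {n : ℕ} {l : ℝ} (hl : 0 < l) {f : Fin n → E → ℝ≥0} (hm : ∀ i, Measurable (f i))
    (h1 : ∀ i, ∫⁻ x, (f i x : ℝ≥0∞) = 1) (hL : ∀ i, LL l (f i)) {u : Fin n → E}
    (hu : ∀ i, ‖u i‖ = 1) (g : E) {δ : ℝ} (hδ : 0 < δ) (hlδ : l * δ ≤ 1 / 40)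
    (hG : ∑ i, ms (u i) (f i) g (41 * δ) ≤ 18) :
    (Measurable fun p : Fin n → E =>
      (10000000 : ℝ≥0∞) * ∑' j : ℕ, ∑ i0, ∏ i, wt δ j (i = i0) (dl (u i) (g - p i))) ∧
    ∫⁻ p, 10000000 * ∑' j : ℕ, ∑ i0, ∏ i, wt δ j (i = i0) (dl (u i) (g - p i))
      ∂(Measure.pi fun i => lw (f i)) ≤ ENNReal.ofReal (10000000 * (4 * Real.exp 79)) := by
  have hp : ∀ i, IsProbabilityMeasure (lw (f i)) := fun i => Vor.main_prob (h1 i)
  have pm : ∀ j i0, Measurable (fun p : Fin n → E => ∏ i, wt δ j (i = i0) (dl (u i) (g - p i))) := by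
    intro j i0
    refine Finset.measurable_prod _ fun i _ => ?_
    exact (Vor.wt_measurable (hu i) δ j (i = i0) g).comp (measurable_pi_apply i)
  have pm2 : Measurable (fun p : Fin n → E =>
      ∑' j : ℕ, ∑ i0, ∏ i, wt δ j (i = i0) (dl (u i) (g - p i))) :=
    Measurable.tsum fun j => Finset.measurable_sum _ fun i0 _ => pm j i0
  refine ⟨pm2.const_mul _, ?_⟩
  rw [lintegral_const_mul _ pm2, ENNReal.ofReal_mul (by norm_num),
    show ENNReal.ofReal (10000000 : ℝ) = 10000000 by norm_num]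
  refine mul_le_mul_right ?_ _
  rw [lintegral_tsum (fun j => (Finset.measurable_sum _ fun i0 _ => pm j i0).aemeasurable)]
  have hD : ∀ i, Measurable (fun x : E => dl (u i) (g - x)) := fun i =>
    ((Vor.dl_basic (hu i)).1.comp (continuous_const.sub continuous_id)).measurable
  refine le_trans (le_of_eq ?_) (per_point2 (fun i => lw (f i)) (fun i x => dl (u i) (g - x)) hD
    (fun i x => (Vor.dl_basic (hu i)).2.1 _) hδ (fun i => ms (u i) (f i) g (41 * δ)) hG
    (fun i j => ring_cond hl (hm i) (h1 i) (hL i) (hu i) g hδ hlδ j))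
  refine tsum_congr fun j => ?_
  rw [lintegral_finsetSum _ (fun i0 _ => pm j i0)]
  refine Finset.sum_congr rfl fun i0 _ => ?_
  exact Vor.lintegral_pi_prod (fun i => lw (f i))
    (fun i x => wt δ j (i = i0) (dl (u i) (g - x)))
    (fun i => Vor.wt_measurable (hu i) δ j (i = i0) g)
-- END gex

end Pool.Agent.Vsn
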