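import Pool.Agent.Vsn.Cells

/-!
The upper bound, the exponential noise
-/

set_option autoImplicit false

namespace Pool.Agent.Vsn

open MeasureTheory Set
open scoped ENNReal NNReal
open Pool.Agent.Vor (E dl line wt Near Faces)

/-- the density of `q` plus exponential noise of size `s` -/
noncomputable def lap (s : ℝ) (q x : E) : ℝ≥0 :=
  Real.toNNReal (Real.exp (-(‖x - q‖ / s)) / (8 * Real.pi * s ^ 3))

-- BEGIN mn3
/-- `F p = ∑ q ∈ T, 10000000 * ∑' j ..` (rows cov, fcl, gex; union bound `Vor.fle_union`, `lintegral_finsetSum`); `C = 10^8 · 10^7 · 4 e^79`. -/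
theorem main_small : ∃ C : ℝ, 0 < C ∧ ∀ (n : ℕ) (l : ℝ) (u : Fin n → E) (f : Fin n → E → ℝ≥0),
    0 < n → 1 ≤ l → (∀ i, ‖u i‖ = 1) → (∀ i, Measurable (f i)) →
    (∀ i, ∫⁻ x, (f i x : ℝ≥0∞) = 1) → (∀ i, LL l (f i)) →
    ∃ F : (Fin n → E) → ℝ≥0∞, Measurable F ∧
      (∀ p, (({f | f ∈ Faces u p ∧ (f ∩ Metric.closedBall 0 1).Nonempty}.encard : ℕ∞) : ℝ≥0∞) ≤ F p) ∧
      ∫⁻ p, F p ∂(Measure.pi fun i => lw (f i)) ≤ ENNReal.ofReal (C * (l * n ^ (3 / 2 : ℝ) + l ^ 3)) := by
  refine ⟨100000000 * (10000000 * (4 * Real.exp 79)), by positivity, ?_⟩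
  intro n l u f hn hl hu hm h1 hL
  obtain ⟨T, hT, hcov, hcard⟩ := cover hn hl hm h1 hL hu
  have hex := fun (q : ℝ × E) (hq : q ∈ T) => expect_cell (lt_of_lt_of_le one_pos hl) hm h1 hL hu
    q.2 (hT q hq).1 (hT q hq).2.1 (hT q hq).2.2
  refine ⟨fun p => ∑ q ∈ T, (10000000 : ℝ≥0∞) * ∑' j : ℕ, ∑ i0, ∏ i,
    wt q.1 j (i = i0) (dl (u i) (q.2 - p i)), ?_, ?_, ?_⟩
  · exact Finset.measurable_sum _ fun q hq => (hex q hq).1
  · intro p
    set B : ℝ × E → Set (Set E) := fun q =>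
      {f | f ∈ Faces u p ∧ ∃ z ∈ f, ∀ c, |z c - q.2 c| ≤ q.1 / 2} with hB
    have hsub : {f | f ∈ Faces u p ∧ (f ∩ Metric.closedBall 0 1).Nonempty} ⊆ ⋃ q ∈ T, B q := by
      rintro f ⟨hf, x, hxf, hx⟩
      rw [Metric.mem_closedBall, dist_zero_right] at hx
      obtain ⟨q, hq, hqx⟩ := hcov x hx
      simp only [mem_iUnion]
      exact ⟨q, hq, hf, x, hxf, hqx⟩
    refine (ENat.toENNReal_mono (Set.encard_le_encard hsub)).trans ((Vor.fle_union T B).trans ?_)
    exact Finset.sum_le_sum fun q hq => faces_cell hn hu p (hT q hq).1 q.2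
  · rw [lintegral_finsetSum _ (fun q hq => (hex q hq).1)]
    refine (Finset.sum_le_sum fun q hq => (hex q hq).2).trans ?_
    rw [Finset.sum_const, nsmul_eq_mul, ← ENNReal.ofReal_natCast,
      ← ENNReal.ofReal_mul (Nat.cast_nonneg _)]
    apply ENNReal.ofReal_le_ofReal
    have h8 : (0 : ℝ) ≤ 10000000 * (4 * Real.exp 79) := by positivity
    calc (T.card : ℝ) * (10000000 * (4 * Real.exp 79)) ≤
          (100000000 * (l * n ^ (3 / 2 : ℝ) + l ^ 3)) * (10000000 * (4 * Real.exp 79)) :=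
          mul_le_mul_of_nonneg_right hcard h8
      _ = 100000000 * (10000000 * (4 * Real.exp 79)) * (l * n ^ (3 / 2 : ℝ) + l ^ 3) := by ring
-- END mn3

-- BEGIN lpi
theorem lpi_integral {s : ℝ} (hs : 0 < s) : ∫ x : E, Real.exp (-(‖x‖ / s)) / (8 * Real.pi * s ^ 3) = 1 := by
  rw [integral_fun_norm_addHaar (μ := (volume : Measure E)) (fun r => Real.exp (-(r / s)) / (8 * Real.pi * s ^ 3))]
  have hv : (volume : Measure E).real (Metric.ball 0 1) = 4 / 3 * Real.pi := by
    rw [Measure.real, EuclideanSpace.volume_ball_fin_three]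
    simp only [ENNReal.ofReal_one, one_pow, one_mul]
    rw [ENNReal.toReal_ofReal (by positivity)]
    ring
  have hI : ∫ y in Ioi (0 : ℝ), y ^ (Module.finrank ℝ E - 1) • (Real.exp (-(y / s)) / (8 * Real.pi * s ^ 3)) = 1 / (4 * Real.pi) := by
    have hd : Module.finrank ℝ E - 1 = 2 := by simp
    rw [hd]
    have h1 := Real.integral_rpow_mul_exp_neg_mul_Ioi (a := 3) (r := 1 / s) (by norm_num) (by positivity)
    have h2 : ∫ y in Ioi (0 : ℝ), y ^ 2 • (Real.exp (-(y / s)) / (8 * Real.pi * s ^ 3)) =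
        ∫ y in Ioi (0 : ℝ), (1 / (8 * Real.pi * s ^ 3)) * (y ^ ((3 : ℝ) - 1) * Real.exp (-(1 / s * y))) := by
      refine setIntegral_congr_fun measurableSet_Ioi (fun y hy => ?_)
      have e1 : y ^ ((3 : ℝ) - 1) = y ^ 2 := by
        rw [show (3 : ℝ) - 1 = ((2 : ℕ) : ℝ) by norm_num, Real.rpow_natCast]
      have e2 : -(1 / s * y) = -(y / s) := by ring
      simp only [smul_eq_mul]
      rw [e1, e2]
      ring
    rw [h2, integral_const_mul, h1]
    have h3 : Real.Gamma 3 = 2 := by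
      have h := Real.Gamma_nat_eq_factorial 2
      rw [show ((2 : ℕ) : ℝ) + 1 = 3 by norm_num] at h
      rw [h]
      norm_num [Nat.factorial]
    have e3 : (1 / (1 / s)) ^ (3 : ℝ) = s ^ 3 := by
      rw [one_div_one_div, show (3 : ℝ) = ((3 : ℕ) : ℝ) by norm_num, Real.rpow_natCast]
    rw [h3, e3]
    have := Real.pi_ne_zero
    have := hs.ne'
    field_simp
    norm_num
  rw [hI, hv]
  simp only [finrank_euclideanSpace, Fintype.card_fin, smul_eq_mul, nsmul_eq_mul]
  have := Real.pi_ne_zero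
  field_simp
  norm_num

/-- `∫ exp (-‖x‖) = 8π` on `E`: `MeasureTheory.measure_lt_one_eq_integral_div_gamma` with `g = norm`, `p = 1` (ball of volume `4π/3`, `Γ 4 = 6`), or as `Vor.tent_integral` (`integral_fun_norm_addHaar`); scaling by `s` (`integral_comp_smul`), translation. -/
theorem lap_int {s : ℝ} (hs : 0 < s) (q : E) : ∫⁻ x, (lap s q x : ℝ≥0∞) = 1 := by
  have h1 : ∫⁻ x, (lap s q x : ℝ≥0∞) = ∫⁻ x, (lap s 0 x : ℝ≥0∞) := by
    rw [← lintegral_sub_right_eq_self (fun x => (lap s 0 x : ℝ≥0∞)) q]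
    simp only [lap, sub_zero]
  have h2 := lpi_integral hs
  have hi : Integrable (fun x : E => Real.exp (-(‖x‖ / s)) / (8 * Real.pi * s ^ 3)) := by
    by_contra hc
    rw [integral_undef hc] at h2
    exact zero_ne_one h2
  rw [h1, ← ENNReal.ofReal_one, ← h2,
    ofReal_integral_eq_lintegral_ofReal hi (Filter.Eventually.of_forall fun x => by positivity)]
  refine lintegral_congr fun x => ?_
  unfold lap
  rw [sub_zero, ENNReal.ofReal]
-- END lpi

-- BEGIN lpl
/-- Triangle inequality; continuity. -/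
theorem lap_LL {s : ℝ} (hs : 0 < s) (q : E) : LL (1 / s) (lap s q) ∧ Measurable (lap s q) := by
  constructor
  · intro x y
    unfold lap
    rw [Real.coe_toNNReal _ (by positivity), Real.coe_toNNReal _ (by positivity), ← mul_div_assoc, ← Real.exp_add]
    apply div_le_div_of_nonneg_right _ (by positivity)
    apply Real.exp_le_exp.2
    have h1 : ‖y - q‖ ≤ ‖x - y‖ + ‖x - q‖ := by
      have h2 := norm_sub_le (x - q) (x - y)
      rw [sub_sub_sub_cancel_left] at h2
      linarith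
    have h3 : ‖y - q‖ / s ≤ ‖x - y‖ / s + ‖x - q‖ / s := by
      rw [← add_div]
      exact div_le_div_of_nonneg_right h1 hs.le
    have h4 : 1 / s * ‖x - y‖ = ‖x - y‖ / s := by ring
    rw [h4]
    linarith
  · unfold lap
    apply Measurable.real_toNNReal
    apply Continuous.measurable
    fun_prop
-- END lpl

end Pool.Agent.Vsn
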