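import Pool.Agent.Vws.Cone
import Pool.Agent.Vws.Gen

/-!
Log-Lipschitz densities: masses of thin cylinders
-/

set_option autoImplicit false

namespace Pool.Agent.Vsn

open MeasureTheory Set
open scoped ENNReal NNReal
open Pool.Agent.Vor (E dl line wt Near Faces)
open Pool.Agent.Vws (st)

/-- log-Lipschitz densities: `f x ≤ e^(l |x-y|) f y` -/
def LL (l : ℝ) (f : E → ℝ≥0) : Prop := ∀ x y, (f x : ℝ) ≤ Real.exp (l * ‖x - y‖) * f y

/-- the law with density `f` -/
noncomputable def lw (f : E → ℝ≥0) : Measure E :=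
  (volume : Measure E).withDensity fun x => (f x : ℝ≥0∞)

/-- the mass of the points `x` for which the line `x + ℝ u` has distance less than `D` from `g` -/
noncomputable def ms (u : E) (f : E → ℝ≥0) (g : E) (D : ℝ) : ℝ := (lw f).real {x | dl u (g - x) < D}

-- BEGIN csc
private noncomputable def csc_f (u : E) (t : ℝ) : E →ₗ[ℝ] E :=
  t • LinearMap.id + (1 - t) • (((innerSL ℝ u) : E →L[ℝ] ℝ) : E →ₗ[ℝ] ℝ).smulRight u

private theorem csc_f_apply (u : E) (t : ℝ) (v : E) : csc_f u t v = st u t v := by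
  simp [csc_f, st, smul_smul]

private theorem csc_det {u : E} (hu : ‖u‖ = 1) (t : ℝ) : LinearMap.det (csc_f u t) = t ^ 2 := by
  obtain ⟨b, hb⟩ := Pool.Agent.Vor.rot_basis hu
  have hin : ∀ j, (inner ℝ u (b j) : ℝ) = if (0 : Fin 3) = j then 1 else 0 := by
    intro j
    rw [← hb]
    exact orthonormal_iff_ite.1 b.orthonormal 0 j
  have key : ∀ j, csc_f u t (b j) = ((![1, t, t] : Fin 3 → ℝ) j) • b j := by
    intro j
    rw [csc_f_apply, st, hin j]
    fin_cases j
    · simp only [Fin.zero_eta, if_true, mul_one, Matrix.cons_val_zero, one_smul]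
      rw [hb, ← add_smul]
      simp
    · simp
    · simp
  have hM : LinearMap.toMatrix b.toBasis b.toBasis (csc_f u t) =
      Matrix.diagonal (![1, t, t] : Fin 3 → ℝ) := by
    ext i j
    rw [LinearMap.toMatrix_apply, OrthonormalBasis.coe_toBasis, key j, map_smul, Matrix.diagonal_apply]
    rw [← OrthonormalBasis.coe_toBasis b, Module.Basis.repr_self]
    rw [Finsupp.smul_apply, Finsupp.single_apply]
    by_cases hij : j = i
    · subst hij
      simp
    · rw [if_neg hij, if_neg (Ne.symm hij), smul_zero]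
  rw [← LinearMap.det_toMatrix b.toBasis, hM, Matrix.det_diagonal]
  simp [Fin.prod_univ_three]
  ring

private theorem csc_inner {u : E} (hu : ‖u‖ = 1) (t : ℝ) (v : E) :
    (inner ℝ u (st u t v) : ℝ) = inner ℝ u v := by
  rw [st, inner_add_right, real_inner_smul_right, real_inner_smul_right,
    real_inner_self_eq_norm_sq, hu]
  ring

private theorem csc_dl {u : E} (hu : ‖u‖ = 1) {t : ℝ} (ht : 0 < t) (v : E) :
    dl u (st u t v) = t * dl u v := by
  unfold Pool.Agent.Vor.dl
  rw [csc_inner hu]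
  have e : st u t v - (inner ℝ u v : ℝ) • u = t • (v - (inner ℝ u v : ℝ) • u) := by
    unfold st
    module
  rw [e, norm_smul, Real.norm_of_nonneg ht.le]

/-- As `Vws.cone_scale` (Vws/Cone, row cscl; the private linear map and its determinant may be copied): `st u t` is linear with determinant `t²`, `dl u (st u t w) = t * dl u w`, so the preimage of `{dl u w < t D}` is `{dl u w < D}`. -/
theorem cyl_scale {u : E} (hu : ‖u‖ = 1) {t : ℝ} (ht : 0 < t) (D : ℝ) (h : E → ℝ≥0)
    (hm : Measurable h) :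
    ∫⁻ w in {w : E | dl u w < t * D}, (h w : ℝ≥0∞) =
      ENNReal.ofReal (t ^ 2) * ∫⁻ w in {w : E | dl u w < D}, (h (st u t w) : ℝ≥0∞) := by
  have hdet : LinearMap.det (csc_f u t) ≠ 0 := by
    rw [csc_det hu]
    positivity
  have hmap := Measure.map_linearMap_addHaar_eq_smul_addHaar (volume : Measure E) hdet
  have hmeas : Measurable (csc_f u t) := (LinearMap.continuous_of_finiteDimensional _).measurable
  have hpre : (csc_f u t) ⁻¹' {w : E | dl u w < t * D} = {w : E | dl u w < D} := by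
    ext v
    simp only [mem_preimage, csc_f_apply, mem_ofPred_eq, csc_dl hu ht, mul_lt_mul_iff_right₀ ht]
  have hset : MeasurableSet {w : E | dl u w < t * D} := by
    have h1 : Continuous (dl u) := by
      unfold Pool.Agent.Vor.dl
      fun_prop
    exact (isOpen_lt h1 continuous_const).measurableSet
  have h1 : ∫⁻ v in {w : E | dl u w < D}, (h (st u t v) : ℝ≥0∞) =
      ∫⁻ w in {w : E | dl u w < t * D}, (h w : ℝ≥0∞) ∂(Measure.map (csc_f u t) volume) := by
    rw [setLIntegral_map hset (by fun_prop) hmeas, hpre]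
    simp only [csc_f_apply]
  rw [hmap, Measure.restrict_smul, lintegral_smul_measure, csc_det hu] at h1
  rw [h1, smul_eq_mul, ← mul_assoc, abs_inv, abs_of_pos (by positivity : (0 : ℝ) < t ^ 2),
    ← ENNReal.ofReal_mul (by positivity), mul_inv_cancel₀ (by positivity), ENNReal.ofReal_one,
    one_mul]
-- END csc

-- BEGIN cgr
/-- Row csc and `h (st u t w) ≤ exp (l ‖st u t w - w‖) h w`, `st u t w - w = (t-1) (w - ⟪u,w⟫ u)`, of norm `(t-1) dl u w ≤ (t-1) D` on the set (`setLIntegral_mono`). -/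
theorem cyl_growth {l : ℝ} (hl : 0 ≤ l) {h : E → ℝ≥0} (hm : Measurable h) (hL : LL l h) {u : E}
    (hu : ‖u‖ = 1) {D t : ℝ} (hD : 0 < D) (ht : 1 ≤ t) :
    ∫⁻ w in {w : E | dl u w < t * D}, (h w : ℝ≥0∞) ≤
      ENNReal.ofReal (t ^ 2 * Real.exp (l * ((t - 1) * D))) *
        ∫⁻ w in {w : E | dl u w < D}, (h w : ℝ≥0∞) := by
  have ht0 : 0 < t := lt_of_lt_of_le one_pos ht
  have hms : MeasurableSet {w : E | dl u w < D} :=
    measurableSet_lt (Pool.Agent.Vor.dl_basic hu).1.measurable measurable_const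
  rw [cyl_scale hu ht0 D h hm, ENNReal.ofReal_mul (by positivity), mul_assoc]
  refine mul_le_mul_right ?_ _
  rw [← lintegral_const_mul _ hm.coe_nnreal_ennreal]
  refine setLIntegral_mono' hms fun w hw => ?_
  have h1 : st u t w - w = (t - 1) • (w - (inner ℝ u w : ℝ) • u) := by
    unfold st
    module
  have h2 : ‖st u t w - w‖ ≤ (t - 1) * D := by
    rw [h1, norm_smul, Real.norm_of_nonneg (by linarith)]
    have h3 : dl u w < D := hw
    have h4 : dl u w = ‖w - (inner ℝ u w : ℝ) • u‖ := rfl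
    rw [← h4]
    exact mul_le_mul_of_nonneg_left h3.le (by linarith)
  have h3 : (h (st u t w) : ℝ) ≤ Real.exp (l * ((t - 1) * D)) * h w :=
    (hL _ _).trans (mul_le_mul_of_nonneg_right
      (Real.exp_le_exp.2 (mul_le_mul_of_nonneg_left h2 hl)) (h w).coe_nonneg)
  rw [← ENNReal.ofReal_coe_nnreal, ← ENNReal.ofReal_coe_nnreal,
    ← ENNReal.ofReal_mul (Real.exp_pos _).le]
  exact ENNReal.ofReal_le_ofReal h3
-- END cgr

-- BEGIN csm
theorem csm_norm {u : E} {t : ℝ} (ht : 1 ≤ t) (w : E) : ‖w - st u t w‖ = (t - 1) * dl u w := by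
  have h1 : w - st u t w = (1 - t) • (w - (inner ℝ u w) • u) := by
    unfold st
    rw [smul_sub, smul_smul, sub_smul, one_smul]
    abel
  rw [h1, norm_smul, Real.norm_eq_abs, abs_sub_comm, abs_of_nonneg (sub_nonneg.mpr ht)]
  rfl

/-- If `1 ≤ l D`: the left side is `≤ 1 ≤ 3 (l D)²`. Otherwise `t = 1/(l D)`: row csc gives `1 ≥ ∫ over {dl < tD} = t² ∫ h (st u t w) ≥ t² e^(-1) ∫ h` over `{dl < D}` (`h w ≤ exp (l ‖w - st u t w‖) h (st u t w)`, `l (t-1) D ≤ 1`), and `e ≤ 3`. -/
theorem cyl_small {l : ℝ} (hl : 0 < l) {h : E → ℝ≥0} (hm : Measurable h) (hL : LL l h)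
    (h1 : ∫⁻ w, (h w : ℝ≥0∞) = 1) {u : E} (hu : ‖u‖ = 1) {D : ℝ} (hD : 0 < D) :
    ∫⁻ w in {w : E | dl u w < D}, (h w : ℝ≥0∞) ≤ ENNReal.ofReal (3 * l ^ 2 * D ^ 2) := by
  have hlD : 0 < l * D := mul_pos hl hD
  rcases le_or_gt 1 (l * D) with hc | hc
  · refine (setLIntegral_le_lintegral _ _).trans ?_
    rw [h1]
    refine ENNReal.one_le_ofReal.mpr ?_
    nlinarith
  · set t : ℝ := 1 / (l * D) with ht
    have htp : 0 < t := by positivity
    have ht1 : 1 ≤ t := by
      rw [ht, le_div_iff₀ hlD]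
      linarith
    have htl : t * (l * D) = 1 := by
      rw [ht]
      field_simp
    have hS : MeasurableSet {w : E | dl u w < D} :=
      measurableSet_lt (Pool.Agent.Vor.dl_basic hu).1.measurable measurable_const
    have key : ∫⁻ w in {w : E | dl u w < D}, (h w : ℝ≥0∞) ≤
        ENNReal.ofReal 3 * ∫⁻ w in {w : E | dl u w < D}, (h (st u t w) : ℝ≥0∞) := by
      rw [← lintegral_const_mul' _ _ ENNReal.ofReal_ne_top]
      refine setLIntegral_mono' hS fun w hw => ?_
      have hw' : dl u w < D := hw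
      have e1 : (h w : ℝ) ≤ 3 * h (st u t w) := by
        refine (hL w (st u t w)).trans ?_
        refine mul_le_mul_of_nonneg_right ?_ (NNReal.coe_nonneg _)
        have e2 : l * ‖w - st u t w‖ ≤ 1 := by
          rw [csm_norm ht1]
          have e3 : (t - 1) * dl u w ≤ (t - 1) * D :=
            mul_le_mul_of_nonneg_left hw'.le (sub_nonneg.mpr ht1)
          have e4 := mul_le_mul_of_nonneg_left e3 hl.le
          nlinarith
        have e5 := Real.exp_le_exp.mpr e2
        have e6 := Real.exp_one_lt_d9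
        linarith
      rw [← ENNReal.ofReal_coe_nnreal, ← ENNReal.ofReal_coe_nnreal, ← ENNReal.ofReal_mul (by norm_num)]
      exact ENNReal.ofReal_le_ofReal e1
    have hsc := cyl_scale hu htp D h hm
    have hle1 : ENNReal.ofReal (t ^ 2) * ∫⁻ w in {w : E | dl u w < D}, (h (st u t w) : ℝ≥0∞) ≤ 1 := by
      rw [← hsc, ← h1]
      exact setLIntegral_le_lintegral _ _
    have hfac : ENNReal.ofReal (3 * l ^ 2 * D ^ 2) * ENNReal.ofReal (t ^ 2) = ENNReal.ofReal 3 := by
      rw [← ENNReal.ofReal_mul (by positivity)]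
      congr 1
      have : 3 * l ^ 2 * D ^ 2 * t ^ 2 = 3 * (t * (l * D)) ^ 2 := by ring
      rw [this, htl]
      norm_num
    refine key.trans ?_
    rw [← hfac, mul_assoc]
    exact (mul_le_mul_right hle1 _).trans (mul_one _).le
-- END csm

-- BEGIN mse
/-- `Vor.lintegral_shift` for the indicator of `{dl u w < D}` (or `measurePreserving_sub_left`); the mass is finite (`Vor.main_prob`). -/
theorem ms_eq {f : E → ℝ≥0} (hm : Measurable f) (h1 : ∫⁻ x, (f x : ℝ≥0∞) = 1) {u : E}
    (hu : ‖u‖ = 1) (g : E) (D : ℝ) :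
    ENNReal.ofReal (ms u f g D) = ∫⁻ w in {w : E | dl u w < D}, (f (g - w) : ℝ≥0∞) := by
  have hP : IsProbabilityMeasure (lw f) := Pool.Agent.Vor.main_prob h1
  have hS : MeasurableSet {w : E | dl u w < D} :=
    measurableSet_lt (Pool.Agent.Vor.dl_basic hu).1.measurable measurable_const
  have hT : MeasurableSet {x : E | dl u (g - x) < D} :=
    (measurable_const.sub measurable_id : Measurable fun x : E => g - x) hS
  unfold ms
  rw [ofReal_measureReal (measure_ne_top _ _), ← lintegral_indicator_one hT]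
  have h2 := Pool.Agent.Vor.lintegral_shift hm g ({w : E | dl u w < D}.indicator (1 : E → ℝ≥0∞))
    (measurable_one.indicator hS)
  have h3 : ∫⁻ x, {x : E | dl u (g - x) < D}.indicator (1 : E → ℝ≥0∞) x ∂(lw f) =
      ∫⁻ x, {w : E | dl u w < D}.indicator (1 : E → ℝ≥0∞) (g - x)
        ∂(volume.withDensity (fun x => (f x : ℝ≥0∞))) := rfl
  rw [h3, h2, ← lintegral_indicator hS]
  refine lintegral_congr fun w => ?_
  by_cases hw : w ∈ {w : E | dl u w < D}
  · rw [indicator_of_mem hw, indicator_of_mem hw, Pi.one_apply, one_mul]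
  · rw [indicator_of_notMem hw, indicator_of_notMem hw, zero_mul]
-- END mse

-- BEGIN msg
/-- Rows mse, cgr for `h w = f (g - w)` (again log-Lipschitz), `ENNReal.toReal`. -/
theorem ms_growth {l : ℝ} (hl : 0 ≤ l) {f : E → ℝ≥0} (hm : Measurable f)
    (h1 : ∫⁻ x, (f x : ℝ≥0∞) = 1) (hL : LL l f) {u : E} (hu : ‖u‖ = 1) (g : E) {D t : ℝ} (hD : 0 < D)
    (ht : 1 ≤ t) : ms u f g (t * D) ≤ t ^ 2 * Real.exp (l * ((t - 1) * D)) * ms u f g D := by
  have h0 : ∀ D', 0 ≤ ms u f g D' := fun D' => measureReal_nonneg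
  have hm' : Measurable fun w : E => f (g - w) := hm.comp (measurable_const.sub measurable_id)
  have hL' : LL l fun w : E => f (g - w) := by
    intro x y
    have h2 := hL (g - x) (g - y)
    rw [sub_sub_sub_cancel_left, norm_sub_rev] at h2
    exact h2
  have h3 := cyl_growth hl hm' hL' hu hD ht
  rw [← ms_eq hm h1 hu g (t * D), ← ms_eq hm h1 hu g D, ← ENNReal.ofReal_mul (by positivity)] at h3
  exact (ENNReal.ofReal_le_ofReal_iff (mul_nonneg (by positivity) (h0 D))).mp h3
-- END msg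

-- BEGIN mss
/-- Rows mse, csm for `h w = f (g - w)`. -/
theorem ms_small {l : ℝ} (hl : 0 < l) {f : E → ℝ≥0} (hm : Measurable f)
    (h1 : ∫⁻ x, (f x : ℝ≥0∞) = 1) (hL : LL l f) {u : E} (hu : ‖u‖ = 1) (g : E) {D : ℝ} (hD : 0 < D) :
    ms u f g D ≤ 3 * l ^ 2 * D ^ 2 := by
  have hm' : Measurable fun w => f (g - w) := hm.comp (measurable_const.sub measurable_id)
  have hL' : LL l fun w => f (g - w) := by
    intro x y
    have e : ‖x - y‖ = ‖(g - x) - (g - y)‖ := by
      rw [sub_sub_sub_cancel_left, norm_sub_rev]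
    show (f (g - x) : ℝ) ≤ Real.exp (l * ‖x - y‖) * f (g - y)
    rw [e]
    exact hL (g - x) (g - y)
  have h1' : ∫⁻ w, ((f (g - w) : ℝ≥0) : ℝ≥0∞) = 1 := by
    rw [lintegral_sub_left_eq_self (fun w => (f w : ℝ≥0∞)) g]
    exact h1
  have h2 := cyl_small hl hm' hL' h1' hu hD
  rw [← ms_eq hm h1 hu g D] at h2
  have h3 : 0 ≤ 3 * l ^ 2 * D ^ 2 := by positivity
  exact (ENNReal.ofReal_le_ofReal_iff h3).mp h2
-- END mss

-- BEGIN msm
/-- Probability measure (`Vor.main_prob`), inclusion of sets, `Vor.dl_basic` (1-Lipschitz). -/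
theorem ms_basic {f : E → ℝ≥0} (h1 : ∫⁻ x, (f x : ℝ≥0∞) = 1) {u : E} (hu : ‖u‖ = 1) (g : E) (D : ℝ) :
    0 ≤ ms u f g D ∧ ms u f g D ≤ 1 ∧
      ∀ (g' : E) (D' : ℝ), D + ‖g - g'‖ ≤ D' → ms u f g D ≤ ms u f g' D' := by
  have hp : IsProbabilityMeasure (lw f) := Pool.Agent.Vor.main_prob h1
  refine ⟨ENNReal.toReal_nonneg, ?_, ?_⟩
  · have h2 : (lw f) {x | dl u (g - x) < D} ≤ 1 := prob_le_one
    have h3 := ENNReal.toReal_mono ENNReal.one_ne_top h2
    rwa [ENNReal.toReal_one] at h3
  · intro g' D' h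
    have h2 : {x | dl u (g - x) < D} ⊆ {x | dl u (g' - x) < D'} := by
      intro x hx
      have h3 : dl u (g - x) < D := hx
      have h4 := (Pool.Agent.Vor.dl_basic hu).2.2.2.2.2 (g' - x) (g - x)
      have h5 : g' - x - (g - x) = -(g - g') := by abel
      rw [h5, norm_neg] at h4
      show dl u (g' - x) < D'
      linarith
    exact ENNReal.toReal_mono (measure_ne_top _ _) (measure_mono h2)
-- END msm

-- BEGIN tub
/-- With `p' = p - ⟪u,p⟫ u`: `dl u (x - p) = dl u (x - p')`, `⟪u, x - p'⟫ = ⟪u, x⟫`, so the set is contained in the translate by `p'` of `{w | |⟪u,w⟫| ≤ 4 ∧ dl u w < b}`, the preimage of `Icc (-4) 4 ×ˢ ball 0 b` under the `φ` of `Vws.exists_rot2`: volume `8 π b²` (as `Vor.volume_ring_le`). -/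
theorem tube_volume {u : E} (hu : ‖u‖ = 1) (p : E) {b : ℝ} (hb : 0 ≤ b) :
    volume {x : E | ‖x‖ ≤ 4 ∧ dl u (x - p) < b} ≤ ENNReal.ofReal (8 * Real.pi * b ^ 2) := by
  obtain ⟨φ, hφ, hφ2⟩ := Vws.exists_rot2 hu
  set p' : E := p - (inner ℝ u p : ℝ) • u with hp'
  have hin : (inner ℝ u p' : ℝ) = 0 := by
    rw [hp', inner_sub_right, real_inner_smul_right, real_inner_self_eq_norm_sq, hu]
    ring
  have hdl : ∀ x : E, dl u (x - p') = dl u (x - p) := by
    intro x
    have e : (inner ℝ u (x - p') : ℝ) = inner ℝ u x := by rw [inner_sub_right, hin, sub_zero]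
    unfold Pool.Agent.Vor.dl
    rw [e, inner_sub_right u x p, hp']
    congr 1
    module
  have hmp : MeasurePreserving (fun x : E => x - p') volume volume :=
    measurePreserving_sub_right volume p'
  have hsub : {x : E | ‖x‖ ≤ 4 ∧ dl u (x - p) < b} ⊆ (fun x : E => φ (x - p')) ⁻¹'
      (Icc (-4 : ℝ) 4 ×ˢ Metric.ball (0 : EuclideanSpace ℝ (Fin 2)) b) := by
    rintro x ⟨h1, h2⟩
    obtain ⟨h3, h4⟩ := hφ2 (x - p')
    rw [mem_preimage, mem_prod]
    refine ⟨mem_Icc.mpr (abs_le.mp ?_), ?_⟩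
    · rw [h3, inner_sub_right, hin, sub_zero]
      refine (abs_real_inner_le_norm u x).trans ?_
      rw [hu, one_mul]
      exact h1
    · rw [mem_ball_zero_iff, h4, hdl]
      exact h2
  have hms : MeasurableSet (Icc (-4 : ℝ) 4 ×ˢ Metric.ball (0 : EuclideanSpace ℝ (Fin 2)) b) :=
    measurableSet_Icc.prod measurableSet_ball
  refine le_trans (measure_mono hsub) ?_
  have hcomp : MeasurePreserving (fun x : E => φ (x - p')) volume (volume.prod volume) :=
    hφ.comp hmp
  rw [hcomp.measure_preimage hms.nullMeasurableSet, Measure.prod_prod, Real.volume_Icc,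
    EuclideanSpace.volume_ball_fin_two]
  have e1 : ENNReal.ofReal b ^ 2 * ENNReal.ofReal Real.pi = ENNReal.ofReal (b ^ 2 * Real.pi) := by
    rw [ENNReal.ofReal_mul (by positivity), ENNReal.ofReal_pow hb]
  rw [e1, ← ENNReal.ofReal_mul (by norm_num)]
  apply le_of_eq
  congr 1
  ring
-- END tub

-- BEGIN mtb
/-- `ofReal (ms u f x b) = (lw f) {y | dl u (x - y) < b}` = integral of an indicator; `lintegral_lintegral_swap` (measurable in `(x, y)`), row tub for `p = y`, total mass 1. -/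
theorem ms_integral {f : E → ℝ≥0} (hm : Measurable f) (h1 : ∫⁻ x, (f x : ℝ≥0∞) = 1) {u : E}
    (hu : ‖u‖ = 1) {b : ℝ} (hb : 0 < b) :
    ∫⁻ x in Metric.closedBall (0 : E) 4, ENNReal.ofReal (ms u f x b) ≤
      ENNReal.ofReal (8 * Real.pi * b ^ 2) := by
  have : IsProbabilityMeasure (lw f) := Vor.main_prob h1
  have hc : Continuous (dl u) := (Vor.dl_basic hu).1
  have hS : MeasurableSet {q : E × E | dl u (q.1 - q.2) < b} :=
    (isOpen_lt (hc.comp (continuous_fst.sub continuous_snd)) continuous_const).measurableSet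
  have e1 : ∀ x : E, ENNReal.ofReal (ms u f x b) =
      ∫⁻ y, ({q : E × E | dl u (q.1 - q.2) < b}.indicator (fun _ => (1 : ℝ≥0∞)) (x, y)) ∂(lw f) := by
    intro x
    have hSx : MeasurableSet {y : E | dl u (x - y) < b} :=
      (isOpen_lt (hc.comp (continuous_const.sub continuous_id)) continuous_const).measurableSet
    have e2 : ENNReal.ofReal (ms u f x b) = (lw f) {y : E | dl u (x - y) < b} := by
      unfold ms
      rw [ofReal_measureReal]
    rw [e2, ← lintegral_indicator_one hSx]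
    rfl
  have hmeas : Measurable (Function.uncurry fun x y : E =>
      {q : E × E | dl u (q.1 - q.2) < b}.indicator (fun _ => (1 : ℝ≥0∞)) (x, y)) :=
    measurable_const.indicator hS
  calc ∫⁻ x in Metric.closedBall (0 : E) 4, ENNReal.ofReal (ms u f x b)
      = ∫⁻ x in Metric.closedBall (0 : E) 4, (∫⁻ y,
          ({q : E × E | dl u (q.1 - q.2) < b}.indicator (fun _ => (1 : ℝ≥0∞)) (x, y)) ∂(lw f)) := by
        simp only [e1]
    _ = ∫⁻ y, (∫⁻ x in Metric.closedBall (0 : E) 4,
          ({q : E × E | dl u (q.1 - q.2) < b}.indicator (fun _ => (1 : ℝ≥0∞)) (x, y))) ∂(lw f) :=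
        lintegral_lintegral_swap hmeas.aemeasurable
    _ ≤ ∫⁻ _y, ENNReal.ofReal (8 * Real.pi * b ^ 2) ∂(lw f) := by
        refine lintegral_mono fun y => ?_
        have hSy : MeasurableSet {x : E | dl u (x - y) < b} :=
          (isOpen_lt (hc.comp (continuous_id.sub continuous_const)) continuous_const).measurableSet
        have e3 : ∫⁻ x in Metric.closedBall (0 : E) 4,
            ({q : E × E | dl u (q.1 - q.2) < b}.indicator (fun _ => (1 : ℝ≥0∞)) (x, y)) =
            (volume.restrict (Metric.closedBall (0 : E) 4)) {x : E | dl u (x - y) < b} := by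
          rw [← lintegral_indicator_one hSy]
          rfl
        rw [e3, Measure.restrict_apply hSy]
        refine (measure_mono ?_).trans (tube_volume hu y hb.le)
        rintro x ⟨h2, h3⟩
        exact ⟨mem_closedBall_zero_iff.1 h3, h2⟩
    _ = ENNReal.ofReal (8 * Real.pi * b ^ 2) := by
        rw [lintegral_const, measure_univ, mul_one]
-- END mtb

end Pool.Agent.Vsn
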